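import Pool.Agent.L5helper60.MQ.Alg

set_option autoImplicit false

/-!
# The algorithm
-/

namespace Pool.Agent.L5helper60.MR

open Function
open Pool.Agent.Lib.CX Pool.Agent.Lib.helper22.CXDet
open Pool.Agent.Lib.Par (rk rk_eq pt_rk ls_opt)
open Pool.Agent.L5helper60.MO (rnk pt_rnk cv pt_cv)
open Pool.Agent.L5helper60.SR (pt_tb' pt_sol)
open Pool.Agent.L5helper60.MQ

/-- the matrix is symmetric -/
def sy (M : Inp) : Bool :=
  decide (∀ μ ∈ ms M, ∀ s < dim M, ∀ t < dim M, cf M μ s t = cf M μ t s)

/-- the bound for the rank of the coefficient matrices -/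
def ro (M : Inp) : ℕ := if sy M = true then 3 else 1

/-- the table of the coefficient matrix of a variable, times the common denominator -/
def ct (M : Inp) (i : ℕ) : List (List ℤ) := tb (dim M) fun s t => dc M i 0 [] s t

/-- the variable has a constant coefficient matrix of small rank -/
def lw (M : Inp) (i : ℕ) : Bool :=
  decide (∀ μ ∈ ms M, (∃ v < nv M, μ.getD v 0 ≠ 0) →
    ∀ s < dim M, ∀ t < dim M, dc M i 0 μ s t = 0) &&
  decide (rnk (dim M) (ct M i) ≤ ro M)

/-- the list of the variables with constant coefficient matrices of small rank -/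
def rl (M : Inp) : List ℕ := (List.range (nv M)).filter fun i => lw M i

/-- the scalar product of two columns -/
def gr (M : Inp) (x : List ℕ) (u u' : ℕ × ℕ × ℕ) : ℤ :=
  gr₀ M u u' +
    ((List.range (nv M)).map fun i => if lw M i = true then 0 else cv x u i * cv x u' i).sum

/-- the table of the scalar products of the columns -/
def gt (M : Inp) (x : List ℕ) : List (List ℤ) := (us M).map fun u => (us M).map fun u' => gr M x u u'

/-- the potential -/
def ps (M : Inp) (x : List ℕ) : ℕ := rk (gt M x)

/-- the number of steps -/
def it (M : Inp) : ℕ := (us M).length + 1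

/-- the point found by the local search -/
def sl (c : ℕ) (M : Inp) : List ℕ :=
  (fun x => ((cd (c + 1) M x).filter (ps M x < ps M ·)).headD x)^[it M] (List.replicate (nv M) 0)

/-- a table of integers as a table of rational numbers -/
def toQ (T : List (List ℤ)) : List (List ℚ) := T.map fun r => r.map fun z : ℤ => (z : ℚ)

/-- the table of a symmetric matrix with two blocks -/
def dbl (n : ℕ) (T : List (List ℤ)) : List (List ℤ) := tb (n + n) fun s t =>
  if s < n then (if t < n then 0 else en T s (t - n)) else (if t < n then en T t (s - n) else 0)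

/-- the point with the coordinates of small rank replaced by zero -/
def zr (M : Inp) (x : List ℕ) : List ℕ :=
  (List.range (nv M)).map fun v => if lw M v = true then 0 else x.getD v 0

/-- the symmetric linear matrix in the variables of small rank -/
def lm (M : Inp) (x : List ℕ) : List (List (List ℚ)) :=
  (et M (zr M x) :: (rl M).map fun i => ct M i).map fun T =>
    toQ (if sy M = true then T else dbl (dim M) T)

/-- the best values of the variables of small rank -/
def fin (M : Inp) (x : List ℕ) : List ℕ := (List.range (nv M)).map fun v =>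
  if lw M v = true then (SR.sol (lm M x)).getD ((rl M).idxOf v) 0 else x.getD v 0

/-- an element of a list with the largest rank -/
def bst (M : Inp) (l : List (List ℕ)) : List ℕ :=
  (l.filter fun y => decide (∀ z ∈ l, rnk (dim M) (et M z) ≤ rnk (dim M) (et M y))).headD []

/-- the substitution -/
def sol (c : ℕ) (M : Inp) : List ℕ := bst M ((cd c M (sl c M)).map fun x => fin M x)

/-- the test of the codimension of the tangent space -/
def flg (c : ℕ) (M : Inp) : Bool :=
  decide (((List.range (nv M)).filter fun i => !lw M i).length + rk (gt₀ M) ≤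
    rk (gt M (sl c M)) + c)

/-- the algorithm for the decision problem -/
def alg (c : ℕ) (M : Inp) : Bool :=
  flg c M && decide (rnk (dim M) (et M (sol c M)) < dim M)

section

variable {α : Type} [Enc α] {L : α → Inp} {i j k l : α → ℕ} {x μ : α → List ℕ}
  {u v : α → ℕ × ℕ × ℕ} {e : α → List (List Unit)} {q : α → ℚ} {T : α → List (List ℤ)}

attribute [local irreducible] ent cden dim nv tb us ce cv rnk nb stp ts ic sh ms cf
  dc gr₀ gt₀ MQ.mv dg ex et

@[fun_prop] lemma pt_sy (hL : PT L) : PT fun a => sy (L a) := by unfold sy; fun_prop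

attribute [local irreducible] sy

@[fun_prop] lemma pt_ro (hL : PT L) : PT fun a => ro (L a) := by unfold ro; fun_prop

@[fun_prop] lemma pt_ct (hL : PT L) (hi : PT i) : PT fun a => ct (L a) (i a) := by
  unfold ct; fun_prop

attribute [local irreducible] ro ct

@[fun_prop] lemma pt_lw (hL : PT L) (hi : PT i) : PT fun a => lw (L a) (i a) := by
  unfold lw; fun_prop

attribute [local irreducible] lw

@[fun_prop] lemma pt_rl (hL : PT L) : PT fun a => rl (L a) := by unfold rl; fun_prop

@[fun_prop] lemma pt_gr (hL : PT L) (hx : PT x) (hu : PT u) (hv : PT v) :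
    PT fun a => gr (L a) (x a) (u a) (v a) := by unfold gr; fun_prop

attribute [local irreducible] rl gr

@[fun_prop] lemma pt_gt (hL : PT L) (hx : PT x) : PT fun a => gt (L a) (x a) := by
  unfold gt; fun_prop

attribute [local irreducible] gt

@[fun_prop] lemma pt_ps (hL : PT L) (hx : PT x) : PT fun a => ps (L a) (x a) := by
  unfold ps; fun_prop

@[fun_prop] lemma pt_it (hL : PT L) : PT fun a => it (L a) := by unfold it; fun_prop

@[fun_prop] lemma pb_it (hL : PT L) : PB fun a => it (L a) := by unfold it; fun_prop

attribute [local irreducible] ps it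

@[fun_prop] lemma pt_cast {z : α → ℤ} (hz : PT z) : PT fun a => ((z a : ℤ) : ℚ) :=
  (hz.pair (PT.const 1)).cast (g := fun a => ((z a : ℤ), (1 : ℕ))) fun _ => rfl

@[fun_prop] lemma pt_toQ (hT : PT T) : PT fun a => toQ (T a) := by
  unfold toQ; fun_prop

@[fun_prop] lemma pt_dbl (hi : PT i) (hb : PB i) (hT : PT T) : PT fun a => dbl (i a) (T a) := by
  unfold dbl en; fun_prop

attribute [local irreducible] toQ dbl

@[fun_prop] lemma pt_zr (hL : PT L) (hx : PT x) : PT fun a => zr (L a) (x a) := by
  unfold zr; fun_prop

attribute [local irreducible] zr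

@[fun_prop] lemma pt_lm (hL : PT L) (hx : PT x) : PT fun a => lm (L a) (x a) := by
  unfold lm; fun_prop

attribute [local irreducible] lm SR.sol

@[fun_prop] lemma pt_fin (hL : PT L) (hx : PT x) : PT fun a => fin (L a) (x a) := by
  unfold fin; fun_prop

attribute [local irreducible] fin

@[fun_prop] lemma pt_bst {m : α → List (List ℕ)} (hL : PT L) (hm : PT m) :
    PT fun a => bst (L a) (m a) := by
  unfold bst; fun_prop

end

end Pool.Agent.L5helper60.MR
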