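import Pool.Agent.L5helper60.MR.Pub
import Pool.Agent.L5helper60.MO.Gen

/-!
# Closure properties of the class of matrices of small modality
-/

set_option autoImplicit false

namespace Pool.Agent.L5helper60.MR

open Pool.Agent.L5helper60.MO (countable_closure alg_mono alg_of_mem alg_sum isUnit_blocks
  isUnit_reindex)

variable {ι ι' τ τ' σ σ' κ κ' : Type} [Fintype ι] [Fintype ι'] [Fintype τ] [Fintype τ']
  [Fintype σ] [Fintype σ'] [Fintype κ] [Fintype κ'] [DecidableEq ι] [DecidableEq ι']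
  [DecidableEq τ] [DecidableEq τ'] [DecidableEq σ] [DecidableEq σ'] [DecidableEq κ]
  [DecidableEq κ']

/-! ### Few variables -/

theorem modality_of_card (F : (κ → ℂ) → Matrix ι ι' ℂ) (R : Set κ) :
    Modality F R Rᶜ.ncard := by
  refine ⟨Subfield.closure ∅, countable_closure Set.countable_empty, fun y => ?_⟩
  obtain ⟨e⟩ : Nonempty ((Rᶜ : Set κ) ≃ Fin Rᶜ.ncard) := by
    rw [← Nat.card_coe_set_eq]
    exact ⟨Finite.equivFin _⟩
  refine ⟨1, 1, 1, 0, fun j => y (e.symm j), isUnit_one, isUnit_one, isUnit_one,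
    fun i hi j hj => ?_, fun z => ?_, fun i hi => ?_⟩
  · exact Matrix.one_apply_ne fun h => hi (h ▸ hj)
  · rw [Matrix.one_mul, Matrix.mul_one, Matrix.one_mulVec, add_zero]
  · rw [Matrix.one_mulVec, add_zero]
    refine alg_of_mem (Or.inr ⟨e ⟨i, hi⟩, ?_⟩)
    beta_reduce
    rw [Equiv.symm_apply_apply]

/-! ### Countably many orbits -/

theorem modality_of_countable {F : (κ → ℂ) → Matrix ι ι' ℂ} {R : Set κ} {Y : Set (κ → ℂ)}
    (hY : Y.Countable) (h : ∀ y : κ → ℂ, ∃ (P : Matrix ι ι ℂ) (Q : Matrix ι' ι' ℂ)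
      (G : Matrix κ κ ℂ) (b : κ → ℂ), IsUnit P ∧ IsUnit Q ∧ IsUnit G ∧
      (∀ i ∉ R, ∀ j ∈ R, G i j = 0) ∧ (∀ z : κ → ℂ, P * F z * Q = F (G.mulVec z + b)) ∧
      ∃ w ∈ Y, ∀ i ∉ R, (G.mulVec y + b) i = w i) : Modality F R 0 := by
  refine ⟨Subfield.closure (⋃ r ∈ Y, Set.range r), countable_closure
    (hY.biUnion fun r _ => Set.countable_range r), fun y => ?_⟩
  obtain ⟨P, Q, G, b, hP, hQ, hG, h0, h1, w, hw, h2⟩ := h y
  refine ⟨P, Q, G, b, Fin.elim0, hP, hQ, hG, h0, h1, fun i hi => alg_of_mem (Or.inl ?_)⟩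
  rw [h2 i hi]
  exact Subfield.subset_closure (Set.mem_biUnion hw ⟨i, rfl⟩)

/-! ### Operations -/

/-- **Operations which are compatible with equivalence.** -/
theorem modality_op {F : (κ → ℂ) → Matrix ι ι' ℂ} {R : Set κ} {F' : (κ' → ℂ) → Matrix τ τ' ℂ}
    {R' : Set κ'} {c c' : ℕ} (hF : Modality F R c) (hF' : Modality F' R' c')
    (Ψ : Matrix ι ι' ℂ → Matrix τ τ' ℂ → Matrix σ σ' ℂ)
    (hΨ : ∀ (P : Matrix ι ι ℂ) (Q : Matrix ι' ι' ℂ) (P' : Matrix τ τ ℂ) (Q' : Matrix τ' τ' ℂ),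
      IsUnit P → IsUnit Q → IsUnit P' → IsUnit Q' →
      ∃ (P₁ : Matrix σ σ ℂ) (Q₁ : Matrix σ' σ' ℂ), IsUnit P₁ ∧ IsUnit Q₁ ∧
        ∀ A B, Ψ (P * A * Q) (P' * B * Q') = P₁ * Ψ A B * Q₁) :
    Modality (fun z : κ ⊕ κ' → ℂ => Ψ (F fun i => z (Sum.inl i)) (F' fun i => z (Sum.inr i)))
      (Sum.inl '' R ∪ Sum.inr '' R') (c + c') := by
  obtain ⟨K, hK, hM⟩ := hF
  obtain ⟨K', hK', hM'⟩ := hF'
  refine ⟨Subfield.closure ((K : Set ℂ) ∪ K'), countable_closure (hK.union hK'), fun y => ?_⟩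
  obtain ⟨P, Q, G, b, s, uP, uQ, uG, h0, h1, h2⟩ := hM fun i => y (Sum.inl i)
  obtain ⟨P', Q', G', b', s', uP', uQ', uG', h0', h1', h2'⟩ := hM' fun i => y (Sum.inr i)
  obtain ⟨P₁, Q₁, u1, u2, h3⟩ := hΨ P Q P' Q' uP uQ uP' uQ'
  have hG : ∀ z : κ ⊕ κ' → ℂ, (Matrix.fromBlocks G 0 0 G').mulVec z + Sum.elim b b' =
      Sum.elim (G.mulVec (fun i => z (Sum.inl i)) + b)
        (G'.mulVec (fun i => z (Sum.inr i)) + b') := by
    intro z
    rw [Matrix.fromBlocks_mulVec]
    funext i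
    rcases i with i | i <;> simp [Function.comp_def]
  have hl : ∀ i, Sum.inl i ∉ (Sum.inl '' R ∪ Sum.inr '' R' : Set (κ ⊕ κ')) → i ∉ R :=
    fun i h hi => h (Or.inl ⟨i, hi, rfl⟩)
  have hr : ∀ i, Sum.inr i ∉ (Sum.inl '' R ∪ Sum.inr '' R' : Set (κ ⊕ κ')) → i ∉ R' :=
    fun i h hi => h (Or.inr ⟨i, hi, rfl⟩)
  refine ⟨P₁, Q₁, Matrix.fromBlocks G 0 0 G', Sum.elim b b', Fin.append s s', u1, u2,
    isUnit_blocks uG uG', fun i hi j hj => ?_, fun z => ?_, fun i hi => ?_⟩
  · rcases i with i | i <;> rcases j with j | j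
    · rw [Matrix.fromBlocks_apply₁₁]
      refine h0 i (hl i hi) j ?_
      simpa using hj
    · rfl
    · rfl
    · rw [Matrix.fromBlocks_apply₂₂]
      refine h0' i (hr i hi) j ?_
      simpa using hj
  · beta_reduce
    rw [hG]
    simp only [Sum.elim_inl, Sum.elim_inr]
    have e1 : (fun i => (G.mulVec (fun i => z (Sum.inl i)) + b) i) =
      G.mulVec (fun i => z (Sum.inl i)) + b := rfl
    have e2 : (fun i => (G'.mulVec (fun i => z (Sum.inr i)) + b') i) =
      G'.mulVec (fun i => z (Sum.inr i)) + b' := rfl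
    rw [e1, e2, ← h1, ← h1', h3]
  · rw [hG]
    rcases i with i | i
    · refine alg_mono (fun x hx => Subfield.subset_closure (Or.inl hx)) ?_ (h2 i (hl i hi))
      rintro _ ⟨j, rfl⟩
      exact Or.inr ⟨Fin.castAdd c' j, Fin.append_left s s' j⟩
    · refine alg_mono (fun x hx => Subfield.subset_closure (Or.inr hx)) ?_ (h2' i (hr i hi))
      rintro _ ⟨j, rfl⟩
      exact Or.inr ⟨Fin.natAdd c j, Fin.append_right s s' j⟩

/-! ### Substitutions -/

/-- **Surjective affine substitutions of the variables.** -/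
theorem modality_subst {F : (κ → ℂ) → Matrix ι ι' ℂ} {R : Set κ} {c : ℕ} (hF : Modality F R c)
    {R' : Set κ'} {H : Matrix κ κ' ℂ} {H₁ : Matrix κ' κ ℂ} (h : κ → ℂ) (hH : H * H₁ = 1)
    (hR : ∀ i ∉ R, ∀ j ∈ R', H i j = 0) (hR' : ∀ i ∉ R', ∀ j ∈ R, H₁ i j = 0) :
    Modality (fun z : κ' → ℂ => F (H.mulVec z + h)) R' c := by
  obtain ⟨K, hK, hM⟩ := hF
  refine ⟨Subfield.closure ((K : Set ℂ) ∪ (Set.range (fun p : κ' × κ => H₁ p.1 p.2) ∪
    Set.range h)), countable_closure (hK.union ((Set.countable_range _).union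
    (Set.countable_range _))), fun y => ?_⟩
  obtain ⟨P, Q, G, b, s, uP, uQ, uG, h0, h1, h2⟩ := hM (H.mulVec y + h)
  obtain ⟨G₁, hG1, hG2⟩ := isUnit_iff_exists.1 uG
  have hHG : H * (H₁ * G * H + (1 - H₁ * H)) = G * H := by
    rw [Matrix.mul_add, Matrix.mul_sub, Matrix.mul_one, ← Matrix.mul_assoc, ← Matrix.mul_assoc,
      ← Matrix.mul_assoc, hH, Matrix.one_mul, Matrix.one_mul, sub_self, add_zero]
  have hH2 : H * (1 - H₁ * H) = 0 := by
    rw [Matrix.mul_sub, Matrix.mul_one, ← Matrix.mul_assoc, hH, Matrix.one_mul, sub_self]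
  have hunit : IsUnit (H₁ * G * H + (1 - H₁ * H)) := by
    rw [← Matrix.mulVec_injective_iff_isUnit]
    have key : ∀ z, (H₁ * G * H + (1 - H₁ * H)).mulVec z = 0 → z = 0 := by
      intro z hz
      have e1 := congrArg H.mulVec hz
      rw [Matrix.mulVec_mulVec, hHG, Matrix.mulVec_zero] at e1
      have e2 := congrArg G₁.mulVec e1
      rw [Matrix.mulVec_mulVec, ← Matrix.mul_assoc, hG2, Matrix.one_mul, Matrix.mulVec_zero] at e2
      have e3 : (H₁ * G * H).mulVec z = 0 := by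
        rw [← Matrix.mulVec_mulVec, e2, Matrix.mulVec_zero]
      have e4 : (H₁ * H).mulVec z = 0 := by
        rw [← Matrix.mulVec_mulVec, e2, Matrix.mulVec_zero]
      rw [Matrix.add_mulVec, Matrix.sub_mulVec, Matrix.one_mulVec, e3, e4, sub_zero,
        zero_add] at hz
      exact hz
    intro u v huv
    have := key (u - v) (by rw [Matrix.mulVec_sub, sub_eq_zero]; exact huv)
    exact sub_eq_zero.1 this
  have hy : ∀ z : κ' → ℂ, H.mulVec ((H₁ * G * H + (1 - H₁ * H)).mulVec z +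
      (H₁.mulVec (G.mulVec h + b - h) - (1 - H₁ * H).mulVec y)) + h =
      G.mulVec (H.mulVec z + h) + b := by
    intro z
    rw [Matrix.mulVec_add, Matrix.mulVec_sub, Matrix.mulVec_mulVec, Matrix.mulVec_mulVec,
      Matrix.mulVec_mulVec, hHG, hH2, hH, Matrix.one_mulVec, Matrix.zero_mulVec, sub_zero,
      Matrix.mulVec_add, ← Matrix.mulVec_mulVec]
    abel
  refine ⟨P, Q, H₁ * G * H + (1 - H₁ * H), H₁.mulVec (G.mulVec h + b - h) -
    (1 - H₁ * H).mulVec y, s, uP, uQ, hunit, fun i hi j hj => ?_, fun z => ?_, fun i hi => ?_⟩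
  · have hij : i ≠ j := fun e => hi (e ▸ hj)
    have e1 : (H₁ * G * H) i j = 0 := by
      rw [Matrix.mul_apply]
      refine Finset.sum_eq_zero fun a _ => ?_
      by_cases ha : a ∈ R
      · have e2 : (H₁ * G) i a = 0 := by
          rw [Matrix.mul_apply]
          refine Finset.sum_eq_zero fun a' _ => ?_
          by_cases ha' : a' ∈ R
          · rw [hR' i hi a' ha', zero_mul]
          · rw [h0 a' ha' a ha, mul_zero]
        rw [e2, zero_mul]
      · rw [hR a ha j hj, mul_zero]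
    have e2 : (H₁ * H) i j = 0 := by
      rw [Matrix.mul_apply]
      refine Finset.sum_eq_zero fun a _ => ?_
      by_cases ha : a ∈ R
      · rw [hR' i hi a ha, zero_mul]
      · rw [hR a ha j hj, mul_zero]
    rw [Matrix.add_apply, Matrix.sub_apply, e1, e2, Matrix.one_apply_ne hij]
    ring
  · beta_reduce
    rw [hy, h1]
  · have e1 : (H₁ * G * H + (1 - H₁ * H)).mulVec y + (H₁.mulVec (G.mulVec h + b - h) -
        (1 - H₁ * H).mulVec y) = H₁.mulVec (G.mulVec (H.mulVec y + h) + b - h) := by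
      have e3 : (H₁ * G * H + (1 - H₁ * H)).mulVec y + (H₁.mulVec (G.mulVec h + b - h) -
          (1 - H₁ * H).mulVec y) = (H₁ * G * H).mulVec y + H₁.mulVec (G.mulVec h + b - h) := by
        rw [Matrix.add_mulVec]
        abel
      have e4 : (H₁ * G * H).mulVec y = H₁.mulVec (G.mulVec (H.mulVec y)) := by
        rw [Matrix.mulVec_mulVec, Matrix.mulVec_mulVec, Matrix.mul_assoc]
      rw [e3, e4, ← Matrix.mulVec_add]
      congr 1
      rw [Matrix.mulVec_add]
      abel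
    rw [e1]
    have hK' : (K : Set ℂ) ⊆ (Subfield.closure ((K : Set ℂ) ∪
        (Set.range (fun p : κ' × κ => H₁ p.1 p.2) ∪ Set.range h)) : Subfield ℂ) :=
      fun x hx => Subfield.subset_closure (Or.inl hx)
    refine alg_sum _ _ fun j _ => ?_
    beta_reduce
    by_cases hj : j ∈ R
    · rw [hR' i hi j hj, zero_mul]
      exact isAlgebraic_zero
    · refine IsAlgebraic.mul (alg_of_mem (Or.inl
        (Subfield.subset_closure (Or.inr (Or.inl ⟨(i, j), rfl⟩))))) ?_
      exact (alg_mono hK' Set.subset_union_right (h2 j hj)).sub (alg_of_mem (Or.inl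
        (Subfield.subset_closure (Or.inr (Or.inr ⟨j, rfl⟩)))))

/-! ### Linear matrices -/

/-- **Linear matrices: symmetries of the space of the values.** -/
theorem modality_linear {A₀ : Matrix ι ι' ℂ} {A : κ → Matrix ι ι' ℂ} {c : ℕ}
    (h : MO.Modality (Set.range fun y : κ → ℂ => A₀ + ∑ i, y i • A i) c) :
    Modality (fun z : κ → ℂ => A₀ + ∑ i, z i • A i) ∅ c := by
  obtain ⟨K, hK, hM⟩ := h
  obtain ⟨L, hL⟩ : ∃ L : (κ → ℂ) →ₗ[ℂ] Matrix ι ι' ℂ, ∀ z, L z = ∑ i, z i • A i :=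
    ⟨Fintype.linearCombination ℂ A, fun z => Fintype.linearCombination_apply ℂ A z⟩
  simp only [← hL] at hM ⊢
  -- the generalized inverse
  obtain ⟨τ, hτ⟩ : ∃ τ : Matrix ι ι' ℂ →ₗ[ℂ] (κ → ℂ), ∀ z, L (τ (L z)) = L z := by
    obtain ⟨g, hg⟩ := LinearMap.exists_rightInverse_of_surjective L.rangeRestrict
      (LinearMap.range_rangeRestrict L)
    obtain ⟨g', hg'⟩ := LinearMap.exists_extend g
    refine ⟨g', fun z => ?_⟩
    have e1 : g' (L z) = g ⟨L z, z, rfl⟩ := by
      rw [← hg']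
      rfl
    have e2 := DFunLike.congr_fun hg ⟨L z, z, rfl⟩
    rw [e1]
    exact congrArg Subtype.val e2
  refine ⟨Subfield.closure ((K : Set ℂ) ∪ (Set.range (fun p : κ × ι × ι' =>
    τ (Matrix.single p.2.1 p.2.2 1) p.1) ∪ Set.range fun p : ι × ι' => A₀ p.1 p.2)),
    countable_closure (hK.union ((Set.countable_range _).union (Set.countable_range _))),
    fun y => ?_⟩
  obtain ⟨P, Q, s, uP, uQ, h1, h2⟩ := hM _ ⟨y, rfl⟩
  have hP0 := h1 (A₀ + L 0) ⟨0, rfl⟩
  obtain ⟨z₀, hz₀⟩ := hP0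
  rw [map_zero, add_zero] at hz₀
  beta_reduce at hz₀
  -- the images of the differences
  have hT : ∀ z, L (τ (P * L z * Q)) = P * L z * Q := by
    intro z
    obtain ⟨z', hz'⟩ := h1 (A₀ + L z) ⟨z, rfl⟩
    beta_reduce at hz'
    rw [Matrix.mul_add, Matrix.add_mul, ← hz₀] at hz'
    have e1 : P * L z * Q = L (z' - z₀) := by
      rw [map_sub]
      have := congrArg (fun N => N - (A₀ + L z₀)) hz'
      beta_reduce at this
      rw [add_sub_cancel_left] at this
      rw [← this]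
      abel
    rw [e1, hτ]
  let g : (κ → ℂ) →ₗ[ℂ] (κ → ℂ) :=
    { toFun := fun z => τ (P * L z * Q) + (z - τ (L z))
      map_add' := fun u v => by
        simp only [map_add, Matrix.mul_add, Matrix.add_mul]
        abel
      map_smul' := fun a u => by
        simp only [map_smul, Matrix.mul_smul, Matrix.smul_mul, RingHom.id_apply, smul_add,
          smul_sub] }
  have hg : ∀ z, g z = τ (P * L z * Q) + (z - τ (L z)) := fun _ => rfl
  have hLg : ∀ z, L (g z) = P * L z * Q := by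
    intro z
    rw [hg, map_add, map_sub, hT, hτ, sub_self, add_zero]
  obtain ⟨P', hP1, hP2⟩ := isUnit_iff_exists.1 uP
  obtain ⟨Q', hQ1, hQ2⟩ := isUnit_iff_exists.1 uQ
  have hinj : Function.Injective g := by
    rw [injective_iff_map_eq_zero]
    intro z hz
    have e1 := hLg z
    rw [hz, map_zero] at e1
    have e2 : L z = 0 := by
      have e3 : P' * (P * L z * Q) * Q' = L z := by
        rw [← Matrix.mul_assoc, ← Matrix.mul_assoc, hP2, Matrix.one_mul, Matrix.mul_assoc, hQ1,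
          Matrix.mul_one]
      rw [← e3, ← e1, Matrix.mul_zero, Matrix.zero_mul]
    rw [hg, e2, Matrix.mul_zero, Matrix.zero_mul, map_zero, sub_zero, zero_add] at hz
    exact hz
  have hGz : ∀ z, (LinearMap.toMatrix' g).mulVec z = g z := fun z => LinearMap.toMatrix'_mulVec g z
  have hG : IsUnit (LinearMap.toMatrix' g) := by
    rw [← Matrix.mulVec_injective_iff_isUnit]
    intro u v huv
    rw [hGz, hGz] at huv
    exact hinj huv
  obtain ⟨y', hy'⟩ := h1 (A₀ + L y) ⟨y, rfl⟩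
  beta_reduce at hy'
  have hLy : L (τ (P * (A₀ + L y) * Q - A₀)) = P * (A₀ + L y) * Q - A₀ := by
    rw [← hy', add_sub_cancel_left, hτ]
  refine ⟨P, Q, LinearMap.toMatrix' g, τ (P * (A₀ + L y) * Q - A₀) - g y, s, uP, uQ, hG,
    fun _ _ _ hj => absurd hj (Set.notMem_empty _), fun z => ?_, fun i _ => ?_⟩
  · beta_reduce
    rw [hGz, map_add, map_sub, hLg, hLg, hLy]
    simp only [Matrix.mul_add, Matrix.add_mul]
    abel
  · rw [hGz, add_sub_cancel]
    have hK' : (K : Set ℂ) ⊆ (Subfield.closure ((K : Set ℂ) ∪ (Set.range (fun p : κ × ι × ι' =>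
        τ (Matrix.single p.2.1 p.2.2 1) p.1) ∪ Set.range fun p : ι × ι' => A₀ p.1 p.2)) :
        Subfield ℂ) := fun x hx => Subfield.subset_closure (Or.inl hx)
    have e1 : ∀ N : Matrix ι ι' ℂ, τ N i = ∑ a, ∑ b, N a b * τ (Matrix.single a b 1) i := by
      intro N
      conv_lhs => rw [Matrix.matrix_eq_sum_single N]
      rw [map_sum, Finset.sum_apply]
      refine Finset.sum_congr rfl fun a _ => ?_
      rw [map_sum, Finset.sum_apply]
      refine Finset.sum_congr rfl fun b _ => ?_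
      have e2 : Matrix.single a b (N a b) = N a b • Matrix.single a b (1 : ℂ) := by
        rw [Matrix.smul_single, smul_eq_mul, mul_one]
      rw [e2, map_smul, Pi.smul_apply, smul_eq_mul]
    rw [e1]
    refine alg_sum _ _ fun a _ => alg_sum _ _ fun b _ => IsAlgebraic.mul ?_ ?_
    · rw [Matrix.sub_apply]
      exact (alg_mono hK' Set.subset_union_right (h2 a b)).sub (alg_of_mem (Or.inl
        (Subfield.subset_closure (Or.inr (Or.inr ⟨(a, b), rfl⟩)))))
    · exact alg_of_mem (Or.inl (Subfield.subset_closure (Or.inr (Or.inl ⟨(i, a, b), rfl⟩))))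

end Pool.Agent.L5helper60.MR
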