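import Pool.Agent.L5helper60.MR.Tan
import Pool.Agent.L5helper60.MQ.Opt

/-!
# Local optima of the dimension of the orbit
-/

set_option autoImplicit false

namespace Pool.Agent.L5helper60.MR

open Module MvPolynomial
open Pool.Agent.L5helper60.MO (pt pt_self minor_eq rank_special exists_generic mins
  der_mins transversal chain)
open Pool.Agent.L5helper60.MQ (Un Pm Qm Cm dir co el dM el_sum Sol mem_Sol base_change sb Rp Rp_map
  Rp_mulVec Rp_degree range_Rp VF VF_X VF_mins off fr_map rank_off rank_grid)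

variable {n k : ℕ}

/-! ### Coordinates which are independent of the tangent space -/

/-- Modulo the coordinates in `R`, no nonzero tangent vector at `x` is supported in `J`. -/
def Ind (M : Matrix (Fin n) (Fin n) (MvPolynomial (Fin k) ℚ)) (R : Finset (Fin k)) (x : Fin k → ℚ)
    (J : Finset (Fin k)) : Prop :=
  ∀ v ∈ (Sol M).map (dir x), (∀ i ∉ R ∪ J, v i = 0) → ∀ i ∉ R, v i = 0

lemma mem_ker_off {K : Type} [Field K] {J : Finset (Fin k)} {v : Fin k → K} :
    v ∈ LinearMap.ker (off (K := K) J) ↔ ∀ i ∉ J, v i = 0 := by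
  rw [LinearMap.mem_ker]
  constructor
  · intro h i hi
    exact congrFun h ⟨i, hi⟩
  · intro h
    funext i
    exact h i.1 i.2

/-- the dimension modulo `R` and modulo `R ∪ J` -/
lemma fr_off_le {K : Type} [Field K] (V : Submodule K (Fin k → K)) {R J : Finset (Fin k)} :
    finrank K (V.map (off (K := K) (R ∪ J))) ≤ finrank K (V.map (off (K := K) R)) := by
  have h1 := fr_map V (off (K := K) (R ∪ J))
  have h2 := fr_map V (off (K := K) R)
  have h3 : (V ⊓ LinearMap.ker (off (K := K) R) : Submodule K (Fin k → K)) ≤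
      V ⊓ LinearMap.ker (off (K := K) (R ∪ J)) := by
    rintro v ⟨hv, hv2⟩
    refine ⟨hv, ?_⟩
    rw [SetLike.mem_coe, mem_ker_off] at hv2 ⊢
    exact fun i hi => hv2 i fun h => hi (Finset.mem_union_left _ h)
  have h4 := Submodule.finrank_mono h3
  omega

lemma fr_off_eq {K : Type} [Field K] (V : Submodule K (Fin k → K)) {R J : Finset (Fin k)}
    (h : ∀ v ∈ V, (∀ i ∉ R ∪ J, v i = 0) → ∀ i ∉ R, v i = 0) :
    finrank K (V.map (off (K := K) (R ∪ J))) = finrank K (V.map (off (K := K) R)) := by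
  have h1 := fr_map V (off (K := K) (R ∪ J))
  have h2 := fr_map V (off (K := K) R)
  have h3 : (V ⊓ LinearMap.ker (off (K := K) R) : Submodule K (Fin k → K)) =
      V ⊓ LinearMap.ker (off (K := K) (R ∪ J)) := by
    ext v
    rw [Submodule.mem_inf, Submodule.mem_inf, mem_ker_off, mem_ker_off]
    constructor
    · rintro ⟨hv, hv2⟩
      exact ⟨hv, fun i hi => hv2 i fun h => hi (Finset.mem_union_left _ h)⟩
    · rintro ⟨hv, hv2⟩
      exact ⟨hv, h v hv hv2⟩
  rw [h3] at h2
  omega

lemma off_eq {K : Type} [Field K] {V : Submodule K (Fin k → K)} {R J : Finset (Fin k)}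
    (h : finrank K (V.map (off (K := K) R)) ≤ finrank K (V.map (off (K := K) (R ∪ J))))
    {v : Fin k → K} (hv : v ∈ V) (hv2 : ∀ i ∉ R ∪ J, v i = 0) : ∀ i ∉ R, v i = 0 := by
  have h1 := fr_map V (off (K := K) (R ∪ J))
  have h2 := fr_map V (off (K := K) R)
  have h3 : (V ⊓ LinearMap.ker (off (K := K) R) : Submodule K (Fin k → K)) ≤
      V ⊓ LinearMap.ker (off (K := K) (R ∪ J)) := by
    rintro v ⟨hv, hv2⟩
    refine ⟨hv, ?_⟩
    rw [SetLike.mem_coe, mem_ker_off] at hv2 ⊢
    exact fun i hi => hv2 i fun h => hi (Finset.mem_union_left _ h)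
  have h4 := Submodule.eq_of_le_of_finrank_le h3 (by omega)
  have h5 : v ∈ (V ⊓ LinearMap.ker (off (K := K) (R ∪ J)) : Submodule K (Fin k → K)) :=
    ⟨hv, mem_ker_off.2 hv2⟩
  rw [← h4] at h5
  exact mem_ker_off.1 h5.2

/-- **At most `c` coordinates are independent of the tangent space at a local optimum.** -/
theorem ind_card {M : Matrix (Fin n) (Fin n) (MvPolynomial (Fin k) ℚ)} {R R' : Finset (Fin k)}
    (hR : R' ⊆ R) {c D : ℕ} (hM : Modality (fun z : Fin k → ℂ => M.map (aeval z)) R' c)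
    (hD : k + 1 ≤ D) {x : Fin k → ℚ}
    (hx : ∀ J : Finset (Fin k), J.card ≤ c + 1 → ∀ m : {j // j ∈ J} → ℕ, (∀ j, m j ≤ D) →
      finrank ℚ (((Sol M).map (dir (pt J x fun j => (m j : ℚ)))).map (off (K := ℚ) R)) ≤
        finrank ℚ (((Sol M).map (dir x)).map (off (K := ℚ) R)))
    {J : Finset (Fin k)} (hJR : Disjoint J R) (hJ : Ind M R x J) : J.card ≤ c := by
  by_contra hc
  obtain ⟨J', hJJ, hJ'⟩ := Finset.exists_subset_card_eq (show c + 1 ≤ J.card by omega)
  have hJR' : Disjoint J' R := hJR.mono_left hJJ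
  have hI : Ind M R x J' := fun v hv h => hJ v hv fun i hi => h i fun hi' => hi
    (Finset.union_subset_union (Finset.Subset.refl _) hJJ hi')
  obtain ⟨K, hK, hM⟩ := hM
  obtain ⟨l, hl⟩ := exists_generic K hK {j // j ∈ J'}
  have hlQ : AlgebraicIndependent ℚ l :=
    hl.restrictScalars (algebraMap ℚ K).injective
  obtain ⟨w, hw1, hw2, i₀, hi₀, hw3⟩ := tangent M (hJR'.mono_right hR) hJ' hl x (hM _)
  obtain ⟨a, ha⟩ := base_change M w hw1
  -- the rank at `x`
  have h2 : (((Rp M).submatrix (Subtype.val : {i // i ∉ R ∪ J'} → Fin k) id).map (aeval x)).rank =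
      finrank ℚ (((Sol M).map (dir x)).map (off (K := ℚ) R)) := by
    rw [← Matrix.submatrix_map, rank_off, range_Rp]
    exact fr_off_eq _ hI
  -- the rank at the generic point
  have h3 := rank_special (x := x) hlQ
    ((Rp M).submatrix (Subtype.val : {i // i ∉ R ∪ J'} → Fin k) id)
  have h4 : (((Rp M).submatrix (Subtype.val : {i // i ∉ R} → Fin k) id).map
      (aeval (pt J' x l))).rank ≤ finrank ℚ (((Sol M).map (dir x)).map (off (K := ℚ) R)) := by
    refine rank_grid (D := D) (d := 1) (fun s t i => Rp_degree M s.1 t i) ?_ (fun m hm => ?_) l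
    · have h5 := Submodule.finrank_le (((Sol M).map (dir x)).map (off (K := ℚ) R))
      rw [Module.finrank_fintype_fun_eq_card, Fintype.card_subtype_compl, Fintype.card_fin] at h5
      omega
    · rw [← Matrix.submatrix_map, rank_off, range_Rp]
      exact hx J' hJ'.le m hm
  rw [h2, ← Matrix.submatrix_map, rank_off] at h3
  rw [← Matrix.submatrix_map, rank_off] at h4
  apply hw3
  refine off_eq (V := LinearMap.range ((Rp M).map (aeval (pt J' x l))).mulVecLin)
    (R := R) (J := J') (h4.trans h3) ⟨a, ?_⟩ (fun i hi => ?_) i₀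
    (Finset.disjoint_left.1 hJR' hi₀)
  · rw [Matrix.mulVecLin_apply, Rp_mulVec]
    congr 1
    funext u
    rw [ha]
    rfl
  · rw [Finset.mem_union, not_or] at hi
    exact hw2 i (fun h => hi.1 (hR h)) hi.2

lemma exists_maximal_ind (M : Matrix (Fin n) (Fin n) (MvPolynomial (Fin k) ℚ))
    (R : Finset (Fin k)) (x : Fin k → ℚ) :
    ∃ J : Finset (Fin k), Disjoint J R ∧ Ind M R x J ∧
      ∀ i, i ∉ R → i ∉ J → ¬ Ind M R x (insert i J) := by
  classical
  obtain ⟨J, hJ, hmax⟩ := Finset.exists_max_image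
    (Finset.univ.filter fun J => Disjoint J R ∧ Ind M R x J) Finset.card ⟨∅, by
      rw [Finset.mem_filter]
      exact ⟨Finset.mem_univ _, Finset.disjoint_empty_left _,
        fun v _ h => by rwa [Finset.union_empty] at h⟩⟩
  obtain ⟨hJ1, hJ2⟩ := (Finset.mem_filter.1 hJ).2
  refine ⟨J, hJ1, hJ2, fun i hR hi h => ?_⟩
  have h1 := hmax _ (Finset.mem_filter.2 ⟨Finset.mem_univ _,
    Finset.disjoint_insert_left.2 ⟨hR, hJ1⟩, h⟩)
  rw [Finset.card_insert_of_notMem hi] at h1
  omega

lemma ind_vector {M : Matrix (Fin n) (Fin n) (MvPolynomial (Fin k) ℚ)} {R : Finset (Fin k)}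
    {x : Fin k → ℚ} {J : Finset (Fin k)} (hJ : Ind M R x J) {i' : Fin k}
    (h1 : ¬ Ind M R x (insert i' J)) :
    ∃ v ∈ (Sol M).map (dir x), (∀ i ∉ R ∪ insert i' J, v i = 0) ∧ v i' ≠ 0 := by
  rw [Ind] at h1
  push Not at h1
  obtain ⟨v, hv, hv0, i₁, hi₁, hvne⟩ := h1
  refine ⟨v, hv, hv0, fun h2 => hvne ?_⟩
  refine hJ v hv (fun i h => ?_) i₁ hi₁
  by_cases h3 : i = i'
  · rw [h3, h2]
  · refine hv0 i ?_
    rw [Finset.mem_union, not_or] at h
    rw [Finset.mem_union, Finset.mem_insert]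
    tauto

lemma card_compl_union {R J : Finset (Fin k)} (h : Disjoint J R) :
    Fintype.card {i // i ∉ R ∪ J} + J.card = Fintype.card {i // i ∉ R} := by
  rw [Fintype.card_subtype_compl, Fintype.card_subtype_compl, Fintype.card_fin, Fintype.card_coe,
    Fintype.card_coe, Finset.card_union_of_disjoint h.symm]
  have h1 := (R ∪ J).card_le_univ
  rw [Fintype.card_fin, Finset.card_union_of_disjoint h.symm] at h1
  omega

/-- The number of coordinates which are independent of the tangent space. -/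
lemma card_of_codim {M : Matrix (Fin n) (Fin n) (MvPolynomial (Fin k) ℚ)} {R : Finset (Fin k)}
    {x : Fin k → ℚ} {c : ℕ}
    (h : Fintype.card {i // i ∉ R} ≤ finrank ℚ (((Sol M).map (dir x)).map (off (K := ℚ) R)) + c)
    {J : Finset (Fin k)} (hJR : Disjoint J R) (hJ : Ind M R x J) : J.card ≤ c := by
  have h3 := fr_off_eq ((Sol M).map (dir x)) hJ
  have h5 := Submodule.finrank_le (((Sol M).map (dir x)).map (off (K := ℚ) (R ∪ J)))
  rw [Module.finrank_fintype_fun_eq_card] at h5
  have h6 := card_compl_union hJR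
  omega

/-- The codimension of the tangent space. -/
lemma codim_of_card {M : Matrix (Fin n) (Fin n) (MvPolynomial (Fin k) ℚ)} {R : Finset (Fin k)}
    {x : Fin k → ℚ} {c : ℕ} (h : ∀ J, Disjoint J R → Ind M R x J → J.card ≤ c) :
    Fintype.card {i // i ∉ R} ≤
      finrank ℚ (((Sol M).map (dir x)).map (off (K := ℚ) R)) + c := by
  classical
  obtain ⟨J, hJR, hJ, hmax⟩ := exists_maximal_ind M R x
  have h1 : ((Sol M).map (dir x)).map (off (K := ℚ) (R ∪ J)) = ⊤ := by
    rw [eq_top_iff, ← (Pi.basisFun ℚ {i // i ∉ R ∪ J}).span_eq, Submodule.span_le]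
    rintro _ ⟨i, rfl⟩
    have hi := i.2
    rw [Finset.mem_union, not_or] at hi
    obtain ⟨v, hv, hv0, hvi⟩ := ind_vector hJ (hmax i.1 hi.1 hi.2)
    refine ⟨(v i.1)⁻¹ • v, Submodule.smul_mem _ _ hv, ?_⟩
    rw [Pi.basisFun_apply]
    funext j
    show (v i.1)⁻¹ * v j.1 = _
    by_cases h2 : j = i
    · subst h2
      rw [Pi.single_eq_same, inv_mul_cancel₀ hvi]
    · rw [Pi.single_eq_of_ne h2, hv0 j.1, mul_zero]
      have hj := j.2
      rw [Finset.mem_union, not_or] at hj
      rw [Finset.mem_union, Finset.mem_insert]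
      rintro (h3 | h3 | h3)
      · exact hj.1 h3
      · exact h2 (Subtype.ext h3)
      · exact hj.2 h3
  have h2 := fr_off_eq ((Sol M).map (dir x)) hJ
  rw [h1, finrank_top, Module.finrank_fintype_fun_eq_card] at h2
  have h6 := card_compl_union hJR
  have h7 := h J hJR hJ
  omega

/-- The tangent space at a local optimum has codimension at most the modality. -/
theorem codim_of_mod {M : Matrix (Fin n) (Fin n) (MvPolynomial (Fin k) ℚ)}
    {R R' : Finset (Fin k)} (hR : R' ⊆ R) {c D : ℕ}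
    (hM : Modality (fun z : Fin k → ℂ => M.map (aeval z)) R' c)
    (hD : k + 1 ≤ D) {x : Fin k → ℚ}
    (hx : ∀ J : Finset (Fin k), J.card ≤ c + 1 → ∀ m : {j // j ∈ J} → ℕ, (∀ j, m j ≤ D) →
      finrank ℚ (((Sol M).map (dir (pt J x fun j => (m j : ℚ)))).map (off (K := ℚ) R)) ≤
        finrank ℚ (((Sol M).map (dir x)).map (off (K := ℚ) R))) :
    Fintype.card {i // i ∉ R} ≤
      finrank ℚ (((Sol M).map (dir x)).map (off (K := ℚ) R)) + c :=
  codim_of_card fun _ hJR hJ => ind_card hR hM hD hx hJR hJ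

/-- **Slices.** If the tangent space at `x` has codimension at most `c` modulo the coordinates in
`R`, then the largest rank is attained at a point of a slice. -/
theorem opt {M : Matrix (Fin n) (Fin n) (MvPolynomial (Fin k) ℚ)} {R : Finset (Fin k)}
    {c d D r : ℕ} (hd : ∀ s t i, (M s t).degreeOf i ≤ d) (hD : (n + 1) * d ≤ D) {x : Fin k → ℚ}
    (hcd : Fintype.card {i // i ∉ R} ≤
      finrank ℚ (((Sol M).map (dir x)).map (off (K := ℚ) R)) + c)
    (hx : ∀ J : Finset (Fin k), J.card ≤ c → ∀ m : {j // j ∈ J} → ℕ, (∀ j, m j ≤ D) →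
      ∀ z : Fin k → ℚ, (∀ i ∉ R, z i = pt J x (fun j => (m j : ℚ)) i) →
        (M.map (aeval z)).rank ≤ r)
    (y : Fin k → ℚ) : (M.map (aeval y)).rank ≤ r := by
  classical
  rcases le_or_gt n r with hnr | hnr
  · have := Matrix.rank_le_card_height (M.map (aeval y))
    rw [Fintype.card_fin] at this
    omega
  obtain ⟨J, hJR, hJ, hmax⟩ := exists_maximal_ind M R x
  have hc := card_of_codim hcd hJR hJ
  obtain ⟨τ, hτ⟩ := exists_generic (algebraMap ℚ ℂ).fieldRange (by
    have : ((algebraMap ℚ ℂ).fieldRange : Set ℂ) = Set.range (algebraMap ℚ ℂ) := by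
      ext; simp
    rw [this]
    exact Set.countable_range _) {j // j ∈ R ∪ J}
  have hτQ : AlgebraicIndependent ℚ τ :=
    hτ.restrictScalars (algebraMap ℚ (algebraMap ℚ ℂ).fieldRange).injective
  -- the unit vectors
  have hunit : ∀ i' : Fin k, ∃ (a : Fin (finrank ℚ (Sol M)) → ℚ) (α : Fin k → ℚ),
      (∀ i ∉ R ∪ J, α i = 0) ∧
      ∀ i, ((Rp M).map (aeval x)).mulVec a i + α i = if i = i' then 1 else 0 := by
    intro i'
    by_cases hi : i' ∈ R ∪ J
    · refine ⟨0, Pi.single i' 1, fun i h => ?_, fun i => ?_⟩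
      · rw [Pi.single_eq_of_ne]
        rintro rfl
        exact h hi
      · rw [Matrix.mulVec_zero, Pi.zero_apply, zero_add, Pi.single_apply]
    · have hi' := hi
      rw [Finset.mem_union, not_or] at hi'
      obtain ⟨v, hv, hv0, hvi⟩ := ind_vector hJ (hmax i' hi'.1 hi'.2)
      rw [← range_Rp] at hv
      obtain ⟨a, ha⟩ := hv
      rw [Matrix.mulVecLin_apply] at ha
      refine ⟨(v i')⁻¹ • a, fun i => if i ∈ R ∪ J then - ((v i')⁻¹ * v i) else 0,
        fun i h => if_neg h, fun i => ?_⟩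
      rw [Matrix.mulVec_smul, ha, Pi.smul_apply, smul_eq_mul]
      beta_reduce
      by_cases h3 : i = i'
      · subst h3
        rw [if_neg hi, if_pos rfl, inv_mul_cancel₀ hvi, add_zero]
      · rw [if_neg h3]
        by_cases h4 : i ∈ R ∪ J
        · rw [if_pos h4]
          ring
        · rw [if_neg h4, hv0 i, mul_zero, add_zero]
          rw [Finset.mem_union, not_or] at h4
          rw [Finset.mem_union, Finset.mem_insert]
          tauto
  choose a α hα ha using hunit
  -- the minors vanish at the generic point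
  have hgen : (M.map (aeval (pt (R ∪ J) x τ))).rank ≤ r := by
    refine rank_grid (D := D) hd ((Nat.mul_le_mul_right d (by omega)).trans hD)
      (fun m hm => ?_) τ
    refine hx J hc (fun j => m ⟨j.1, Finset.mem_union_right _ j.2⟩) (fun j => hm _) _
      fun i hi => ?_
    by_cases h : i ∈ J
    · rw [pt, pt, dif_pos h, dif_pos (Finset.mem_union_right _ h)]
    · rw [pt, pt, dif_neg h, dif_neg]
      rw [Finset.mem_union]
      tauto
  have hzero : ∀ f ∈ mins (r + 1) M, aeval (pt (R ∪ J) x τ) f = 0 := by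
    intro f hf
    refine Submodule.span_induction (p := fun f _ => aeval (pt (R ∪ J) x τ) f = 0) ?_ ?_ ?_ ?_ hf
    · rintro _ ⟨g, h, rfl⟩
      rw [← minor_eq]
      by_contra h2
      have h3 := (Pool.Agent.L5helper60.MO.le_rank_iff _ _).2 ⟨g, h, h2⟩
      omega
    · rw [map_zero]
    · intro f g _ _ hf hg
      rw [map_add, hf, hg, add_zero]
    · intro g f _ hf
      rw [smul_eq_mul, map_mul, hf, mul_zero]
  -- conclusion
  by_contra hy
  rw [not_le, ← Nat.succ_le_iff, Pool.Agent.L5helper60.MO.le_rank_iff] at hy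
  obtain ⟨g, h, hgh⟩ := hy
  apply hgh
  rw [minor_eq]
  refine transversal (D := VF M) (a := a) (VF_mins M (r + 1)) hα (fun i' i => ?_) hτQ hzero
    (Ideal.subset_span ⟨g, h, rfl⟩) y
  rw [← ha i' i, Matrix.mulVec, dotProduct]
  congr 1
  refine Finset.sum_congr rfl fun l _ => ?_
  rw [VF_X, mul_comm]
  rfl

end Pool.Agent.L5helper60.MR
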