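import Pool.Agent.L5helper60.MR.Defs
import Pool.Agent.L5helper60.MR.Alg
import Pool.Agent.L5helper60.MR.Opt
import Pool.Agent.L5helper60.MQ.Mai

set_option autoImplicit false

/-!
# Correctness of the algorithm
-/

namespace Pool.Agent.L5helper60.MR

open Module Submodule Function MvPolynomial
open Pool.Agent.Lib.CX Pool.Agent.Lib.helper22.CXDet
open Pool.Agent.Lib.Par (rk rk_eq pt_rk ls_opt)
open Pool.Agent.L5helper60.MO (rnk pt_rnk cv pt_cv rk_gram sum_range_map rnk_eq en_map pt)
open Pool.Agent.L5helper60.SR (det_eq_zero_iff)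
open Pool.Agent.L5helper60.MQ

/-! ### Symmetric matrices -/

lemma ms_mr {M : Inp} {μ : List ℕ} (h : μ ∈ ms M) :
    ∃ r, (ms M)[r] = μ ∧ mr M r = mo (nv M) fun v => μ.getD v 0 := by
  obtain ⟨r, hr, he⟩ := List.mem_iff_getElem.1 h
  refine ⟨⟨r, hr⟩, he, ?_⟩
  rw [mr]
  have : (ms M)[(⟨r, hr⟩ : Fin (ms M).length)] = μ := he
  rw [this]

theorem sy_iff (M : Inp) : sy M = true ↔ (pol M).IsSymm := by
  rw [sy, decide_eq_true_eq]
  constructor
  · intro h
    refine Matrix.IsSymm.ext fun s t => MvPolynomial.ext _ _ fun μ => ?_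
    rw [pol_apply, pol_apply]
    have h1 : ∀ r, coeff (mr M r) (pe M s t) = coeff (mr M r) (pe M t s) := by
      intro r
      have h2 := h (ms M)[r] (List.getElem_mem _) s s.2 t t.2
      have h3 := congrArg (fun z : ℤ => (z : ℚ)) h2
      simp only [cf_cast] at h3
      exact mul_left_cancel₀ (cden_ne M) h3
    by_cases h4 : coeff μ (pe M s t) = 0
    · by_cases h5 : coeff μ (pe M t s) = 0
      · rw [h4, h5]
      · obtain ⟨r, rfl⟩ := pe_coeff h5
        exact (h1 r).symm
    · obtain ⟨r, rfl⟩ := pe_coeff h4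
      exact (h1 r).symm
  · intro h μ hμ s hs t ht
    have h1 := h.apply ⟨s, hs⟩ ⟨t, ht⟩
    rw [pol_apply, pol_apply] at h1
    have h2 : ((cf M μ s t : ℤ) : ℚ) = (cf M μ t s : ℤ) := by
      rw [cf_cast, cf_cast]
      rw [show pe M s t = pe M t s from h1.symm]
    exact_mod_cast h2

lemma ro_iff (M : Inp) (r : ℕ) : r ≤ ro M ↔ (r ≤ 1 ∨ (pol M).IsSymm ∧ r ≤ 3) := by
  rw [ro, ← sy_iff]
  by_cases h : sy M = true
  · rw [if_pos h]
    constructor
    · intro h1
      exact Or.inr ⟨h, h1⟩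
    · rintro (h1 | h1)
      · omega
      · exact h1.2
  · rw [if_neg h]
    constructor
    · intro h1
      exact Or.inl h1
    · rintro (h1 | h1)
      · exact h1
      · exact absurd h1.1 h

/-! ### Variables of small rank -/

/-- the coefficient matrix of a variable -/
noncomputable def cA (M : Inp) (i : Fin (nv M)) : Matrix (Fin (dim M)) (Fin (dim M)) ℚ :=
  Matrix.of fun s t => coeff 0 (pderiv i (pol M s t))

lemma dc_zero (M : Inp) (i : Fin (nv M)) (μ : List ℕ) (s t : Fin (dim M)) :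
    (dc M i 0 μ s t : ℚ) =
      cden M * coeff (mo (nv M) fun v => μ.getD v 0) (pderiv i (pol M s t)) := by
  have h1 := dc_cast M μ i 0 s t
  have h2 : (co (0 : Fin (nv M + 1)) : MvPolynomial (Fin (nv M)) ℚ) = 1 := rfl
  rw [h2, one_mul, ← pol_apply] at h1
  exact h1

lemma mo_zero (k : ℕ) : (mo k fun v => ([] : List ℕ).getD v 0) = 0 := by
  ext v
  simp [mo_apply]

lemma en_ct (M : Inp) (i : Fin (nv M)) (s t : Fin (dim M)) :
    (en (ct M i) s t : ℚ) = ((cden M : ℚ) • cA M i) s t := by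
  rw [ct, en_tb s.2 t.2, dc_zero, mo_zero]
  rfl

lemma rnk_ct (M : Inp) (i : Fin (nv M)) : rnk (dim M) (ct M i) = (cA M i).rank := by
  rw [rnk_eq (en_ct M i), SR.rank_smul' (cden_ne M)]

theorem lw_iff (M : Inp) (i : Fin (nv M)) : lw M i = true ↔ i ∈ low M := by
  rw [lw, Bool.and_eq_true, decide_eq_true_eq, decide_eq_true_eq, rnk_ct, ro_iff]
  have hne : ∀ μ : List ℕ, (∃ v < nv M, μ.getD v 0 ≠ 0) ↔
      (mo (nv M) fun v => μ.getD v 0) ≠ 0 := by
    intro μ
    rw [← mo_zero, Ne, mo_eq]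
    push Not
    simp
  constructor
  · rintro ⟨h1, h2⟩
    refine ⟨cA M i, h2, fun s t => MvPolynomial.ext _ _ fun μ => ?_⟩
    rw [coeff_C]
    by_cases h3 : (0 : Fin (nv M) →₀ ℕ) = μ
    · subst h3
      rw [if_pos rfl]
      rfl
    · rw [if_neg h3]
      by_contra h4
      have h6 : co (0 : Fin (nv M + 1)) * pderiv i (pe M s t) = pderiv i (pe M s t) := by
        have h2 : (co (0 : Fin (nv M + 1)) : MvPolynomial (Fin (nv M)) ℚ) = 1 := rfl
        rw [h2, one_mul]
      obtain ⟨r, hr⟩ := dc_coeff (M := M) (s := s) (t := t) (i := i) (l := 0) (μ := μ)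
        (by rw [h6, ← pol_apply]; exact h4)
      have h7 := h1 (ms M)[r] (List.getElem_mem _) ((hne _).2 (by
        rw [mr] at hr
        rw [hr]
        exact fun h => h3 h.symm)) s s.2 t t.2
      have h8 := congrArg (fun z : ℤ => (z : ℚ)) h7
      simp only [dc_zero] at h8
      rw [mr] at hr
      rw [hr, Int.cast_zero] at h8
      exact h4 ((mul_eq_zero.1 h8).resolve_left (cden_ne M))
  · rintro ⟨A, hA, h⟩
    have h0 : cA M i = A := by
      ext s t
      rw [cA, Matrix.of_apply, h, coeff_zero_C]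
    rw [h0]
    refine ⟨fun μ _ hμ s hs t ht => ?_, hA⟩
    have h1 := dc_zero M i μ ⟨s, hs⟩ ⟨t, ht⟩
    rw [h, coeff_C, if_neg fun h' => (hne μ).1 hμ h'.symm, mul_zero] at h1
    exact_mod_cast h1

/-- the set of the variables of small rank -/
def Rs (M : Inp) : Finset (Fin (nv M)) := Finset.univ.filter fun i => lw M i = true

lemma mem_Rs {M : Inp} {i : Fin (nv M)} : i ∈ Rs M ↔ lw M i = true := by
  rw [Rs, Finset.mem_filter]
  simp

lemma coe_Rs (M : Inp) : (Rs M : Set (Fin (nv M))) = low M := by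
  ext i
  rw [Finset.mem_coe, mem_Rs, lw_iff]

/-! ### The system of linear equations -/

/-- the linear map of the system -/
noncomputable def T (M : Inp) (x : Fin (nv M) → ℚ) : (Un (dim M) (nv M) → ℚ) →ₗ[ℚ]
    (Ro M ⊕ Fin (nv M) → ℚ) where
  toFun w := Sum.elim (T₀ M w) (fun i => if lw M i = true then 0 else dir x w i)
  map_add' w w' := by
    funext r
    rcases r with r | i
    · simp only [map_add, Sum.elim_inl, Pi.add_apply]
    · simp only [map_add, Sum.elim_inr, Pi.add_apply]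
      split_ifs <;> simp
  map_smul' c w := by
    funext r
    rcases r with r | i
    · simp only [map_smul, Sum.elim_inl, Pi.smul_apply, RingHom.id_apply]
    · simp only [map_smul, Sum.elim_inr, Pi.smul_apply, RingHom.id_apply]
      split_ifs <;> simp

lemma ker_T (M : Inp) (x : Fin (nv M) → ℚ) : LinearMap.ker (T M x) =
    Sol (pol M) ⊓ LinearMap.ker ((off (K := ℚ) (Rs M)).comp (dir x)) := by
  rw [← ker_T₀]
  ext w
  rw [Submodule.mem_inf, LinearMap.mem_ker, LinearMap.mem_ker, LinearMap.mem_ker,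
    LinearMap.comp_apply]
  constructor
  · intro h
    refine ⟨funext fun r => congrFun h (Sum.inl r), funext fun i => ?_⟩
    have h1 : (if lw M i.1 = true then 0 else dir x w i.1) = 0 := congrFun h (Sum.inr i.1)
    have h2 : ¬ lw M i.1 = true := fun h => i.2 (mem_Rs.2 h)
    rw [if_neg h2] at h1
    exact h1
  · rintro ⟨h1, h2⟩
    funext r
    rcases r with r | i
    · exact congrFun h1 r
    · show (if lw M i = true then 0 else dir x w i) = 0
      by_cases h : lw M i = true
      · rw [if_pos h]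
      · rw [if_neg h]
        exact congrFun h2 ⟨i, fun h' => h (mem_Rs.1 h')⟩

/-- the column of an unknown -/
def col (M : Inp) (x : List ℕ) (u : ℕ × ℕ × ℕ) : Ro M ⊕ Fin (nv M) → ℚ :=
  Sum.elim (col₀ M u) (fun i => if lw M i = true then 0 else (cv x u i : ℚ))

lemma gr_cast (M : Inp) (x : List ℕ) (u u' : ℕ × ℕ × ℕ) :
    (gr M x u u' : ℚ) = col M x u ⬝ᵥ col M x u' := by
  rw [gr, Int.cast_add, gr₀_cast, sum_range_map, dotProduct, dotProduct, Fintype.sum_sum_type]
  simp only [col, Sum.elim_inl, Sum.elim_inr]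
  congr 1
  push_cast
  refine Finset.sum_congr rfl fun i _ => ?_
  split_ifs <;> simp

lemma col_eq (M : Inp) (x : List ℕ) (u : Un (dim M) (nv M)) :
    col M x (ecd M u) = T M (fun i => ((x.getD i 0 : ℕ) : ℚ)) (Pi.single u 1) := by
  funext r
  rcases r with r | i
  · exact congrFun (col₀_eq M u) r
  · have h1 := congrFun (MQ.col_eq M x u) (Sum.inr i)
    change (cv x (ecd M u) i : ℚ) = dir (fun i => ((x.getD i 0 : ℕ) : ℚ)) (Pi.single u 1) i at h1
    show (if lw M i = true then 0 else (cv x (ecd M u) i : ℚ)) =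
      if lw M i = true then 0 else dir (fun i => ((x.getD i 0 : ℕ) : ℚ)) (Pi.single u 1) i
    rw [h1]

/-- **The rank of the system of linear equations.** -/
theorem rk_gt (M : Inp) (x : List ℕ) : rk (gt M x) + finrank ℚ (Sol (pol M)) =
    Fintype.card (Un (dim M) (nv M)) + finrank ℚ (((Sol (pol M)).map
      (dir fun i => ((x.getD i 0 : ℕ) : ℚ))).map (off (K := ℚ) (Rs M))) := by
  have h1 : rk (gt M x) =
      finrank ℚ (LinearMap.range (T M fun i => ((x.getD i 0 : ℕ) : ℚ))) :=
    rk_table _ _ (col M x) (gr_cast M x) (col_eq M x)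
  have h2 := LinearMap.finrank_range_add_finrank_ker (T M fun i => ((x.getD i 0 : ℕ) : ℚ))
  rw [ker_T, Module.finrank_fintype_fun_eq_card] at h2
  have h3 := fr_map (Sol (pol M))
    ((off (K := ℚ) (Rs M)).comp (dir fun i => ((x.getD i 0 : ℕ) : ℚ)))
  rw [Submodule.map_comp] at h3
  omega

end Pool.Agent.L5helper60.MR
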