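import Pool.Agent.L5helper60.MQ.Defs

set_option autoImplicit false

/-!
# Variables of small rank

Definition only.
-/

namespace Pool.Agent.L5helper60.MR

open MvPolynomial
open Pool.Agent.L5helper60.MQ (Inp nv dim pol)

/-- The set of the variables `x_i` of small rank: the matrix is the sum of `x_i A` and of a matrix
which does not depend on `x_i`, where `A` is a constant matrix of rank at most one, or of rank at most
three if the polynomial matrix is symmetric. In other words, the derivative of the matrix with respect
to `x_i` is such a constant matrix `A`. -/
def low (M : Inp) : Set (Fin (nv M)) :=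
  {i | ∃ A : Matrix (Fin (dim M)) (Fin (dim M)) ℚ,
    (A.rank ≤ 1 ∨ (pol M).IsSymm ∧ A.rank ≤ 3) ∧ ∀ s t, pderiv i (pol M s t) = C (A s t)}

end Pool.Agent.L5helper60.MR
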