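import Pool.Agent.L5helper60.MR.Mai

set_option autoImplicit false

/-!
# The main theorem
-/

namespace Pool.Agent.L5helper60.MR

open MvPolynomial
open Pool.Agent.Lib.CX (PT InP)
open Pool.Agent.L5helper60.MQ (Inp nv dim pol vl rank_complex)
open Pool.Agent.L5helper60.SR (det_eq_zero_iff)

theorem main (c : ℕ) : ∃ (C : Inp → Prop) (sol : Inp → List ℕ), InP C ∧ PT sol ∧
    (∀ (M : Inp) (R : Set (Fin (nv M))), R ⊆ low M →
      Modality (fun z : Fin (nv M) → ℂ => (pol M).map (aeval z)) R c → C M) ∧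
    (InP fun M => C M ∧ (pol M).det = 0) ∧
    ∀ M, C M →
      (∀ z : Fin (nv M) → ℂ, ((pol M).map (aeval z)).rank ≤
        ((pol M).map (eval fun i : Fin (nv M) => (((sol M).getD i 0 : ℕ) : ℚ))).rank) ∧
      ((pol M).det = 0 ↔ ((pol M).map (eval fun i : Fin (nv M) => (((sol M).getD i 0 : ℕ) : ℚ))).det = 0) := by
  have hvl : ∀ M, vl M (sol c M) = (pol M).map (eval fun i : Fin (nv M) => (((sol c M).getD i 0 : ℕ) : ℚ)) :=
    fun M => by
      rw [vl, aeval_eq_eval]
  refine ⟨fun M => flg c M = true, sol c, ⟨flg c, pt_flg c, fun M => Iff.rfl⟩, pt_sol c,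
    fun M R hR h => flg_of_mod hR h, ⟨alg c, pt_alg c, fun M => (alg_iff c M).symm⟩,
    fun M h => ⟨fun z => ?_, ?_⟩⟩
  · rw [← hvl]
    exact rank_complex (sol_max h) z
  · rw [sol_singular h, ← hvl, det_eq_zero_iff]

end Pool.Agent.L5helper60.MR
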