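import Pool.Agent.L5helper60.MR.Cls

/-!
# Direct sums, tensor products and examples of matrices of modality zero
-/

set_option autoImplicit false

namespace Pool.Agent.L5helper60.MR

open Pool.Agent.L5helper60.MO (isUnit_blocks modality_univ modality_skew)

variable {ι ι' τ τ' σ σ' κ κ' : Type} [Fintype ι] [Fintype ι'] [Fintype τ] [Fintype τ']
  [Fintype σ] [Fintype σ'] [Fintype κ] [Fintype κ'] [DecidableEq ι] [DecidableEq ι']
  [DecidableEq τ] [DecidableEq τ'] [DecidableEq σ] [DecidableEq σ'] [DecidableEq κ]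
  [DecidableEq κ']

/-- Operations with one argument. -/
theorem modality_map {F : (κ → ℂ) → Matrix ι ι' ℂ} {R : Set κ} {c : ℕ} (hF : Modality F R c)
    (Φ : Matrix ι ι' ℂ → Matrix σ σ' ℂ)
    (hΦ : ∀ (P : Matrix ι ι ℂ) (Q : Matrix ι' ι' ℂ), IsUnit P → IsUnit Q →
      ∃ (P₁ : Matrix σ σ ℂ) (Q₁ : Matrix σ' σ' ℂ), IsUnit P₁ ∧ IsUnit Q₁ ∧
        ∀ A, Φ (P * A * Q) = P₁ * Φ A * Q₁) :
    Modality (fun z : κ → ℂ => Φ (F z)) R c := by
  obtain ⟨K, hK, hM⟩ := hF
  refine ⟨K, hK, fun y => ?_⟩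
  obtain ⟨P, Q, G, b, s, uP, uQ, uG, h0, h1, h2⟩ := hM y
  obtain ⟨P₁, Q₁, u1, u2, h3⟩ := hΦ P Q uP uQ
  refine ⟨P₁, Q₁, G, b, s, u1, u2, uG, h0, fun z => ?_, h2⟩
  beta_reduce
  rw [← h1, h3]

/-- Direct sums. -/
theorem modality_sum {F : (κ → ℂ) → Matrix ι ι' ℂ} {R : Set κ} {F' : (κ' → ℂ) → Matrix τ τ' ℂ}
    {R' : Set κ'} {c c' : ℕ} (hF : Modality F R c) (hF' : Modality F' R' c') :
    Modality (fun z : κ ⊕ κ' → ℂ => Matrix.fromBlocks (F fun i => z (Sum.inl i)) 0 0
      (F' fun i => z (Sum.inr i))) (Sum.inl '' R ∪ Sum.inr '' R') (c + c') := by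
  refine modality_op hF hF' (fun A B => Matrix.fromBlocks A 0 0 B)
    fun P Q P' Q' hP hQ hP' hQ' => ⟨Matrix.fromBlocks P 0 0 P', Matrix.fromBlocks Q 0 0 Q',
      isUnit_blocks hP hP', isUnit_blocks hQ hQ', fun A B => ?_⟩
  rw [Matrix.fromBlocks_multiply, Matrix.fromBlocks_multiply]
  simp only [Matrix.mul_zero, Matrix.zero_mul, add_zero, zero_add]

omit [Fintype ι'] [Fintype τ'] [DecidableEq ι'] [DecidableEq τ'] in
lemma isUnit_kron {P : Matrix ι ι ℂ} {P' : Matrix τ τ ℂ} (hP : IsUnit P) (hP' : IsUnit P') :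
    IsUnit (Matrix.kronecker P P') := by
  obtain ⟨N, h1, h2⟩ := isUnit_iff_exists.1 hP
  obtain ⟨N', h3, h4⟩ := isUnit_iff_exists.1 hP'
  refine isUnit_iff_exists.2 ⟨Matrix.kronecker N N', ?_, ?_⟩
  · refine (Matrix.mul_kronecker_mul P N P' N').symm.trans ?_
    rw [h1, h3]
    exact Matrix.one_kronecker_one
  · refine (Matrix.mul_kronecker_mul N P N' P').symm.trans ?_
    rw [h2, h4]
    exact Matrix.one_kronecker_one

/-- Tensor products. -/
theorem modality_tensor {F : (κ → ℂ) → Matrix ι ι' ℂ} {R : Set κ}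
    {F' : (κ' → ℂ) → Matrix τ τ' ℂ} {R' : Set κ'} {c c' : ℕ} (hF : Modality F R c)
    (hF' : Modality F' R' c') :
    Modality (fun z : κ ⊕ κ' → ℂ => Matrix.kronecker (F fun i => z (Sum.inl i))
      (F' fun i => z (Sum.inr i))) (Sum.inl '' R ∪ Sum.inr '' R') (c + c') := by
  refine modality_op hF hF' (fun A B => Matrix.kronecker A B)
    fun P Q P' Q' hP hQ hP' hQ' => ⟨Matrix.kronecker P P', Matrix.kronecker Q Q',
      isUnit_kron hP hP', isUnit_kron hQ hQ', fun A B => ?_⟩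
  refine (Matrix.mul_kronecker_mul (P * A) Q (P' * B) Q').trans ?_
  congr 1
  exact Matrix.mul_kronecker_mul P A P' B

/-- **Generic matrices have modality zero.** -/
theorem modality_generic :
    Modality (fun z : ι × ι' → ℂ => (Matrix.of fun i j => z (i, j) : Matrix ι ι' ℂ)) ∅ 0 := by
  have h1 : (fun z : ι × ι' → ℂ => (Matrix.of fun i j => z (i, j) : Matrix ι ι' ℂ)) =
      fun z => 0 + ∑ p, z p • Matrix.single p.1 p.2 (1 : ℂ) := by
    funext z
    ext i j
    rw [zero_add, Matrix.sum_apply, Finset.sum_eq_single (i, j)]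
    · simp
    · rintro ⟨a, b⟩ _ h
      have : ¬ (a = i ∧ b = j) := fun e => h (by rw [e.1, e.2])
      simp [this]
    · simp
  have h2 : (Set.range fun z : ι × ι' → ℂ => 0 + ∑ p, z p • Matrix.single p.1 p.2 (1 : ℂ)) =
      Set.univ := by
    rw [← h1]
    refine Set.eq_univ_of_forall fun M => ⟨fun p => M p.1 p.2, ?_⟩
    ext i j
    rfl
  rw [h1]
  refine modality_linear ?_
  rw [h2]
  exact modality_univ

/-- **Generic skew-symmetric matrices have modality zero.** -/
theorem modality_skew' :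
    Modality (fun z : ι × ι → ℂ => (Matrix.of fun i j => z (i, j) - z (j, i) : Matrix ι ι ℂ))
      ∅ 0 := by
  have h1 : (fun z : ι × ι → ℂ => (Matrix.of fun i j => z (i, j) - z (j, i) : Matrix ι ι ℂ)) =
      fun z => 0 + ∑ p, z p • (Matrix.single p.1 p.2 (1 : ℂ) - Matrix.single p.2 p.1 1) := by
    funext z
    ext i j
    rw [zero_add, Matrix.sum_apply]
    simp only [Matrix.smul_apply, Matrix.sub_apply, smul_sub, Finset.sum_sub_distrib]
    have e1 : ∑ p : ι × ι, z p • Matrix.single p.1 p.2 (1 : ℂ) i j = z (i, j) := by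
      rw [Finset.sum_eq_single (i, j)]
      · simp
      · rintro ⟨a, b⟩ _ h
        have : ¬ (a = i ∧ b = j) := fun e => h (by rw [e.1, e.2])
        simp [this]
      · simp
    have e2 : ∑ p : ι × ι, z p • Matrix.single p.2 p.1 (1 : ℂ) i j = z (j, i) := by
      rw [Finset.sum_eq_single (j, i)]
      · simp
      · rintro ⟨a, b⟩ _ h
        have : ¬ (b = i ∧ a = j) := fun e => h (by rw [e.1, e.2])
        simp [this]
      · simp
    rw [e1, e2]
    rfl
  have h2 : (Set.range fun z : ι × ι → ℂ => 0 + ∑ p, z p •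
      (Matrix.single p.1 p.2 (1 : ℂ) - Matrix.single p.2 p.1 1)) =
      {S : Matrix ι ι ℂ | S.transpose = -S} := by
    rw [← h1]
    ext S
    constructor
    · rintro ⟨z, rfl⟩
      show _ = _
      ext i j
      simp
    · intro hS
      have hS' : ∀ a b, S a b = - S b a := fun a b => congrFun (congrFun hS b) a
      refine ⟨fun p => S p.1 p.2 / 2, ?_⟩
      ext i j
      show S i j / 2 - S j i / 2 = S i j
      rw [hS' j i]
      ring
  rw [h1]
  refine modality_linear ?_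
  rw [h2]
  exact modality_skew

end Pool.Agent.L5helper60.MR
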