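import Pool.Agent.L5helper60.MR.Slv

set_option autoImplicit false

/-!
# The algorithm finds the largest rank
-/

namespace Pool.Agent.L5helper60.MR

open Module Submodule Function MvPolynomial
open Pool.Agent.Lib.CX Pool.Agent.Lib.helper22.CXDet
open Pool.Agent.Lib.Par (rk rk_eq pt_rk ls_opt)
open Pool.Agent.L5helper60.MO (rnk pt_rnk cv pt_cv rk_gram sum_range_map rnk_eq en_map pt)
open Pool.Agent.L5helper60.SR (det_eq_zero_iff)
open Pool.Agent.L5helper60.MQ

/-! ### The variables of small rank -/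

lemma mt_et (M : Inp) (x : List ℕ) : mt (dim M) (et M x) = (cden M : ℚ) • vl M x := by
  ext s t
  exact en_et M x s t

lemma mt_ct (M : Inp) (i : Fin (nv M)) : mt (dim M) (ct M i) = (cden M : ℚ) • cA M i := by
  ext s t
  exact en_ct M i s t

lemma pderiv_low {M : Inp} {i : Fin (nv M)} (hi : i ∈ Rs M) (s t : Fin (dim M)) :
    pderiv i (pol M s t) = C (cA M i s t) := by
  obtain ⟨A, -, hA⟩ := (lw_iff M i).1 (mem_Rs.1 hi)
  rw [cA, Matrix.of_apply, hA, coeff_zero_C]

lemma cA_rank {M : Inp} {i : Fin (nv M)} (hi : i ∈ Rs M) :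
    (cA M i).rank ≤ 1 ∨ (pol M).IsSymm ∧ (cA M i).rank ≤ 3 := by
  obtain ⟨A, hA, h⟩ := (lw_iff M i).1 (mem_Rs.1 hi)
  have h0 : cA M i = A := by
    ext s t
    rw [cA, Matrix.of_apply, h, coeff_zero_C]
  rw [h0]
  exact hA

lemma cA_symm {M : Inp} (h : (pol M).IsSymm) (i : Fin (nv M)) : (cA M i).IsSymm :=
  Matrix.IsSymm.ext fun s t => by
    rw [cA, Matrix.of_apply, Matrix.of_apply, h.apply]

lemma zr_getD (M : Inp) (x : List ℕ) (v : Fin (nv M)) :
    (zr M x).getD v 0 = if v ∈ Rs M then 0 else x.getD v 0 := by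
  have h : (v : ℕ) < (List.range (nv M)).length := by
    rw [List.length_range]
    exact v.2
  rw [zr, List.getD_eq_getElem _ _ (by rw [List.length_map]; exact h), List.getElem_map,
    List.getElem_range]
  simp only [mem_Rs]

lemma fin_getD (M : Inp) (x : List ℕ) (v : Fin (nv M)) :
    (fin M x).getD v 0 = if v ∈ Rs M then (SR.sol (lm M x)).getD ((rl M).idxOf (v : ℕ)) 0
      else x.getD v 0 := by
  have h : (v : ℕ) < (List.range (nv M)).length := by
    rw [List.length_range]
    exact v.2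
  rw [fin, List.getD_eq_getElem _ _ (by rw [List.length_map]; exact h), List.getElem_map,
    List.getElem_range]
  simp only [mem_Rs]

lemma rl_nodup (M : Inp) : (rl M).Nodup := List.nodup_range.filter _

lemma mem_rl {M : Inp} {v : ℕ} : v ∈ rl M ↔ v < nv M ∧ lw M v = true := by
  rw [rl, List.mem_filter, List.mem_range]

/-- the sum over the variables of small rank -/
lemma sum_rl (M : Inp) (f : Fin (nv M) → ℚ) (g : Fin (rl M).length → ℚ)
    (h : ∀ (j : Fin (rl M).length) (h : (rl M)[j] < nv M), g j = f ⟨(rl M)[j], h⟩) :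
    ∑ j, g j = ∑ i ∈ Rs M, f i := by
  obtain ⟨F, hF⟩ : ∃ F : ℕ → ℚ, F = fun v => if h : v < nv M then f ⟨v, h⟩ else 0 := ⟨_, rfl⟩
  have h1 : ∀ j, g j = F (rl M)[j] := by
    intro j
    have h2 : (rl M)[j] < nv M := (mem_rl.1 (List.getElem_mem j.2)).1
    rw [h j h2, hF]
    beta_reduce
    rw [dif_pos h2]
  have h2 : ∑ j, g j = ((rl M).map F).sum := by
    rw [← Fin.sum_univ_fun_getElem]
    exact Finset.sum_congr rfl fun j _ => h1 j
  have h3 : ∀ i : Fin (nv M), F i = f i := by
    intro i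
    rw [hF]
    beta_reduce
    rw [dif_pos i.2]
  have h4 : (rl M).toFinset = (Finset.range (nv M)).filter fun v => lw M v = true := by
    ext v
    rw [List.mem_toFinset, mem_rl, Finset.mem_filter, Finset.mem_range]
  rw [h2, ← List.sum_toFinset _ (rl_nodup M), h4, Finset.sum_filter, Finset.sum_range, Rs,
    Finset.sum_filter]
  simp only [h3]

/-- the matrix as a linear matrix in the variables of small rank -/
lemma expand (M : Inp) (x : List ℕ) (z : Fin (nv M) → ℚ)
    (hz : ∀ i ∉ Rs M, z i = ((x.getD i 0 : ℕ) : ℚ)) (y : ℕ → ℚ)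
    (hy : ∀ (j : Fin (rl M).length) (h : (rl M)[j] < nv M), y j = z ⟨(rl M)[j], h⟩) :
    mt (dim M) (et M (zr M x)) + ∑ j : Fin (rl M).length, y j • mt (dim M) (ct M (rl M)[j]) =
      (cden M : ℚ) • (pol M).map (aeval z) := by
  have hz₀ : (fun i : Fin (nv M) => (((zr M x).getD i 0 : ℕ) : ℚ)) =
      fun i => if i ∈ Rs M then 0 else z i := by
    funext i
    rw [zr_getD]
    by_cases h : i ∈ Rs M
    · rw [if_pos h, if_pos h, Nat.cast_zero]
    · rw [if_neg h, if_neg h, hz i h]
  ext s t
  rw [Matrix.add_apply, mt_et, Matrix.sum_apply, Matrix.smul_apply, Matrix.smul_apply, vl,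
    Matrix.map_apply, Matrix.map_apply, smul_eq_mul, smul_eq_mul, hz₀,
    taylor (pol M s t) (Rs M) (fun i => cA M i s t) (fun i hi => pderiv_low hi s t) z, mul_add,
    Finset.mul_sum]
  congr 1
  refine sum_rl M _ _ fun j h => ?_
  have h1 := mt_ct M ⟨(rl M)[j], h⟩
  change mt (dim M) (ct M (rl M)[j]) = _ at h1
  rw [Matrix.smul_apply, h1, Matrix.smul_apply, hy j h, smul_eq_mul, smul_eq_mul]
  ring

/-- **The best values of the variables of small rank.** -/
theorem fin_max (M : Inp) (x : List ℕ) (z : Fin (nv M) → ℚ)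
    (hz : ∀ i ∉ Rs M, z i = ((x.getD i 0 : ℕ) : ℚ)) :
    ((pol M).map (aeval z)).rank ≤ (vl M (fin M x)).rank := by
  -- the values
  obtain ⟨y, hy⟩ : ∃ y : ℕ → ℚ, ∀ (j : Fin (rl M).length) (h : (rl M)[j] < nv M),
      y j = z ⟨(rl M)[j], h⟩ := by
    refine ⟨fun j => if h : ∃ h' : j < (rl M).length, (rl M)[j] < nv M then z ⟨(rl M)[j]'h.1, h.2⟩
      else 0, fun j h => ?_⟩
    beta_reduce
    rw [dif_pos ⟨j.2, h⟩]
    rfl
  have hy' : ∀ (j : Fin (rl M).length) (h : (rl M)[j] < nv M),
      (((SR.sol (lm M x)).getD j 0 : ℕ) : ℚ) =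
        (fun i : Fin (nv M) => (((fin M x).getD i 0 : ℕ) : ℚ)) ⟨(rl M)[j], h⟩ := by
    intro j h
    have h1 : (⟨(rl M)[j], h⟩ : Fin (nv M)) ∈ Rs M :=
      mem_Rs.2 (mem_rl.1 (List.getElem_mem j.2)).2
    beta_reduce
    rw [fin_getD, if_pos h1]
    have h2 : (rl M).idxOf (rl M)[j] = j := (rl_nodup M).idxOf_getElem j.1 j.2
    simp only [h2]
  have hz' : ∀ i ∉ Rs M, (fun i : Fin (nv M) => (((fin M x).getD i 0 : ℕ) : ℚ)) i =
      ((x.getD i 0 : ℕ) : ℚ) := by
    intro i hi
    beta_reduce
    rw [fin_getD, if_neg hi]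
  have e1 := expand M x z hz y hy
  have e2 := expand M x _ hz' (fun j => (((SR.sol (lm M x)).getD j 0 : ℕ) : ℚ)) hy'
  have hT0 : (et M (zr M x)).length = dim M := by simp [et, tb]
  rw [← SR.rank_smul' (cden_ne M), ← e1]
  have hvl : (vl M (fin M x)).rank = ((cden M : ℚ) • (pol M).map (aeval
      fun i : Fin (nv M) => (((fin M x).getD i 0 : ℕ) : ℚ))).rank := by
    rw [SR.rank_smul' (cden_ne M), vl]
  rw [hvl, ← e2]
  by_cases hs : sy M = true
  · -- symmetric matrices
    have hsym := (sy_iff M).1 hs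
    have hlm : lm M x = (et M (zr M x) :: (rl M).map fun i => ct M i).map toQ := by
      rw [lm]
      refine List.map_congr_left fun T _ => ?_
      rw [if_pos hs]
    have h1 := solve (N := dim M) (T0 := et M (zr M x)) (Tl := (rl M).map fun i => ct M i) hT0
      (by
        rw [mt_et, Matrix.IsSymm, Matrix.transpose_smul, vl, ← Matrix.transpose_map, hsym.eq]) ?_ y
    · rw [← hlm] at h1
      have hlen : ((rl M).map fun i => ct M i).length = (rl M).length := List.length_map _
      have hsum : ∀ w : ℕ → ℚ, ∑ j : Fin ((rl M).map fun i => ct M i).length,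
          w j • mt (dim M) ((rl M).map fun i => ct M i)[j] =
          ∑ j : Fin (rl M).length, w j • mt (dim M) (ct M (rl M)[j]) := by
        intro w
        rw [← Equiv.sum_comp (finCongr hlen)]
        refine Finset.sum_congr rfl fun j _ => ?_
        have : ((rl M).map fun i => ct M i)[j] = ct M (rl M)[finCongr hlen j] := by
          simp
        rw [this]
        rfl
      have h2 := hsum fun j => (((SR.sol (lm M x)).getD j 0 : ℕ) : ℚ)
      beta_reduce at h2
      rw [hsum y, h2] at h1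
      exact h1
    · intro T hT
      obtain ⟨i, hi, rfl⟩ := List.mem_map.1 hT
      have hi' := mem_rl.1 hi
      have h2 := mt_ct M ⟨i, hi'.1⟩
      change mt (dim M) (ct M i) = _ at h2
      rw [h2, SR.rank_smul' (cden_ne M)]
      refine ⟨?_, ?_⟩
      · rw [Matrix.IsSymm, Matrix.transpose_smul, (cA_symm hsym _).eq]
      · rcases cA_rank (mem_Rs.2 hi'.2 : (⟨i, hi'.1⟩ : Fin (nv M)) ∈ Rs M) with h | h
        · omega
        · exact h.2
  · -- other matrices
    have hlm : lm M x = (dbl (dim M) (et M (zr M x)) ::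
        (rl M).map fun i => dbl (dim M) (ct M i)).map toQ := by
      rw [lm, List.map_cons, List.map_cons, List.map_map, List.map_map, if_neg hs]
      congr 1
      refine List.map_congr_left fun T _ => ?_
      rw [Function.comp_apply, Function.comp_apply, if_neg hs]
    have h1 := solve (N := dim M + dim M) (T0 := dbl (dim M) (et M (zr M x)))
      (Tl := (rl M).map fun i => dbl (dim M) (ct M i)) (by simp [dbl, tb])
      (by rw [mt_dbl]; exact D_symm _) ?_ y
    · rw [← hlm] at h1
      have hlen : ((rl M).map fun i => dbl (dim M) (ct M i)).length = (rl M).length :=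
        List.length_map _
      have hsum : ∀ w : ℕ → ℚ, mt (dim M + dim M) (dbl (dim M) (et M (zr M x))) +
          ∑ j : Fin ((rl M).map fun i => dbl (dim M) (ct M i)).length,
          w j • mt (dim M + dim M) ((rl M).map fun i => dbl (dim M) (ct M i))[j] =
          D (mt (dim M) (et M (zr M x)) +
            ∑ j : Fin (rl M).length, w j • mt (dim M) (ct M (rl M)[j])) := by
        intro w
        rw [D_add, D_sum, mt_dbl, ← Equiv.sum_comp (finCongr hlen)]
        congr 1
        refine Finset.sum_congr rfl fun j _ => ?_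
        have : ((rl M).map fun i => dbl (dim M) (ct M i))[j] =
            dbl (dim M) (ct M (rl M)[finCongr hlen j]) := by
          simp
        rw [this, mt_dbl, D_smul]
        rfl
      have h2 := hsum fun j => (((SR.sol (lm M x)).getD j 0 : ℕ) : ℚ)
      beta_reduce at h2
      rw [hsum y, h2, rank_D, rank_D] at h1
      omega
    · intro T hT
      obtain ⟨i, hi, rfl⟩ := List.mem_map.1 hT
      have hi' := mem_rl.1 hi
      have h2 := mt_ct M ⟨i, hi'.1⟩
      change mt (dim M) (ct M i) = _ at h2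
      rw [mt_dbl]
      refine ⟨D_symm _, ?_⟩
      rw [rank_D, h2, SR.rank_smul' (cden_ne M)]
      rcases cA_rank (mem_Rs.2 hi'.2 : (⟨i, hi'.1⟩ : Fin (nv M)) ∈ Rs M) with h | h
      · omega
      · exact absurd ((sy_iff M).2 h.1) hs

/-! ### The best element of a list -/

lemma bst_spec (M : Inp) {l : List (List ℕ)} (hl : l ≠ []) :
    ∀ z ∈ l, (vl M z).rank ≤ (vl M (bst M l)).rank := by
  obtain ⟨y, hy, hmax⟩ := Finset.exists_max_image l.toFinset (fun y => (vl M y).rank)
    ⟨_, List.mem_toFinset.2 (List.head_mem hl)⟩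
  have h1 : y ∈ l.filter fun y => decide (∀ z ∈ l, rnk (dim M) (et M z) ≤
      rnk (dim M) (et M y)) := by
    rw [List.mem_filter, decide_eq_true_eq]
    refine ⟨List.mem_toFinset.1 hy, fun z hz => ?_⟩
    rw [rnk_et, rnk_et]
    exact hmax z (List.mem_toFinset.2 hz)
  rw [bst]
  rcases h : l.filter fun y => decide (∀ z ∈ l, rnk (dim M) (et M z) ≤
      rnk (dim M) (et M y)) with _ | ⟨w, l'⟩
  · rw [h] at h1
    exact absurd h1 List.not_mem_nil
  · intro z hz
    have h2 : w ∈ l.filter fun y => decide (∀ z ∈ l, rnk (dim M) (et M z) ≤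
      rnk (dim M) (et M y)) := by
      rw [h]
      exact List.mem_cons_self
    rw [List.mem_filter, decide_eq_true_eq] at h2
    have h3 := h2.2 z hz
    rw [rnk_et, rnk_et] at h3
    exact h3

/-! ### The local search -/

lemma ps_lt (M : Inp) (x : List ℕ) : ps M x < it M := by
  have h1 := rk_gt M x
  have h2 := finrank_map_le (off (K := ℚ) (Rs M))
    ((Sol (pol M)).map (dir fun i => ((x.getD i 0 : ℕ) : ℚ)))
  have h3 := finrank_map_le (dir fun i => ((x.getD i 0 : ℕ) : ℚ)) (Sol (pol M))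
  rw [ps, it, us_length]
  omega

lemma sl_inv (c : ℕ) (M : Inp) (k : ℕ) :
    ∀ x, x = (fun x => ((cd (c + 1) M x).filter (ps M x < ps M ·)).headD x)^[k]
        (List.replicate (nv M) 0) → x.length = nv M ∧ ∀ v ∈ x, v ≤ nb M := by
  induction k with
  | zero =>
    rintro _ rfl
    simp
  | succ k ih =>
    rintro _ rfl
    rw [iterate_succ_apply']
    obtain ⟨h1, h2⟩ := ih _ rfl
    generalize (fun x => ((cd (c + 1) M x).filter (ps M x < ps M ·)).headD x)^[k]
      (List.replicate (nv M) 0) = x at *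
    rcases h : (cd (c + 1) M x).filter (ps M x < ps M ·) with _ | ⟨y, l⟩
    · exact ⟨h1, h2⟩
    have := (List.mem_filter.1 (h ▸ List.mem_cons_self : y ∈ _)).1
    obtain ⟨h3, h4⟩ := cd_inv (c + 1) this
    refine ⟨h3.trans h1, fun v hv => ?_⟩
    rcases h4 v hv with h5 | h5
    · exact h2 v h5
    · exact h5

lemma sl_length (c : ℕ) (M : Inp) : (sl c M).length = nv M := (sl_inv c M _ _ rfl).1

attribute [local irreducible] ent cden dim nv tb us ce cv rnk nb stp ts ic sh ms cf
  dc gr₀ gt₀ MQ.mv dg ex et sy ro ct lw rl gr gt ps it in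
theorem pt_sl (c : ℕ) : PT (sl c) := by
  have h0 : ∀ {α : Type} [Enc α] {L : α → Inp} {x : α → List ℕ}, PT L → PT x →
    PT fun a => cd (c + 1) (L a) (x a) := pt_cd (c + 1)
  have h1 : PT fun p : Inp × List ℕ => cd (c + 1) p.1 p.2 :=
    h0 (by fun_prop) (by fun_prop)
  refine PT.iterate (B := fun M => nv M * (3 * nb M + 2 + 1) + 2)
    ?_ (by fun_prop) (by fun_prop) (by fun_prop) (by fun_prop) fun M k _ => by
      obtain ⟨h1, h2⟩ := sl_inv c M k _ rfl
      exact (size_list_le fun v hv => (size_nat_mono (h2 v hv)).trans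
        (size_nat_le _)).trans_eq (by rw [h1])
  fun_prop

attribute [local irreducible] ent cden dim nv tb us ce cv rnk nb stp ts ic sh ms cf
  dc gr₀ gt₀ MQ.mv dg ex et sy ro ct lw rl gr gt ps it sl toQ dbl zr lm SR.sol fin bst in
theorem pt_sol (c : ℕ) : PT (sol c) := by
  have h0 := pt_sl c
  have h1 : PT fun M => cd c M (sl c M) := pt_cd c PT.id h0
  unfold sol
  fun_prop

attribute [local irreducible] ent cden dim nv tb us ce cv rnk nb stp ts ic sh ms cf
  dc gr₀ gt₀ MQ.mv dg ex et sy ro ct lw rl gr gt ps it sl toQ dbl zr lm SR.sol fin bst sol in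
theorem pt_flg (c : ℕ) : PT (flg c) := by
  have h0 := pt_sl c
  unfold flg
  fun_prop

attribute [local irreducible] ent cden dim nv tb us ce cv rnk nb stp ts ic sh ms cf
  dc gr₀ gt₀ MQ.mv dg ex et sy ro ct lw rl gr gt ps it sl toQ dbl zr lm SR.sol fin bst sol flg in
theorem pt_alg (c : ℕ) : PT (alg c) := by
  have h0 := pt_sol c
  have h1 := pt_flg c
  unfold alg
  fun_prop

/-- the point found by the local search is a local optimum -/
theorem sl_opt (c : ℕ) (M : Inp) (J : Finset (Fin (nv M))) (hJ : J.card ≤ c + 1)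
    (m : {j // j ∈ J} → ℕ) (hm : ∀ j, m j ≤ nb M) :
    finrank ℚ (((Sol (pol M)).map (dir (pt J (fun i : Fin (nv M) =>
        (((sl c M).getD i 0 : ℕ) : ℚ)) fun j => (m j : ℚ)))).map (off (K := ℚ) (Rs M))) ≤
      finrank ℚ (((Sol (pol M)).map (dir (fun i : Fin (nv M) =>
        (((sl c M).getD i 0 : ℕ) : ℚ)))).map (off (K := ℚ) (Rs M))) := by
  have o := ls_opt (cd (c + 1) M) (ps M) (List.replicate (nv M) 0) (K := it M) (ps_lt M)
  change ∀ y ∈ cd (c + 1) M (sl c M), _ ≤ ps M (sl c M) at o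
  obtain ⟨z, hz, -, hz2⟩ := cd_mem (c + 1) J
    (fun i => if h : i ∈ J then m ⟨i, h⟩ else (sl c M).getD i 0) (sl c M) (sl_length c M) hJ
    (fun i hi => by rw [dif_neg hi]) (fun i hi => by rw [dif_pos hi]; exact hm _)
  have h1 := o z hz
  rw [ps, ps] at h1
  have h2 := rk_gt M z
  have h3 := rk_gt M (sl c M)
  have h4 : (fun i : Fin (nv M) => ((z.getD i 0 : ℕ) : ℚ)) =
      pt J (fun i : Fin (nv M) => (((sl c M).getD i 0 : ℕ) : ℚ)) fun j => (m j : ℚ) := by
    funext i
    rw [hz2, pt]
    by_cases h : i ∈ J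
    · rw [dif_pos h, dif_pos h]
    · rw [dif_neg h, dif_neg h]
      rfl
  rw [h4] at h2
  omega

lemma card_compl (M : Inp) : ((List.range (nv M)).filter fun i => !lw M i).length =
    Fintype.card {i // i ∉ Rs M} := by
  have h1 : ((List.range (nv M)).filter fun i => !lw M i).length =
      ((Finset.range (nv M)).filter fun v => ¬ lw M v = true).card := by
    rw [← List.toFinset_card_of_nodup (List.nodup_range.filter _)]
    congr 1
    ext v
    simp
  rw [h1, Fintype.card_subtype]
  have h2 : (Finset.range (nv M)).filter (fun v => ¬ lw M v = true) =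
      (Finset.univ.filter fun i : Fin (nv M) => i ∉ Rs M).map Fin.valEmbedding := by
    ext v
    rw [Finset.mem_filter, Finset.mem_range, Finset.mem_map]
    constructor
    · rintro ⟨hv, h⟩
      exact ⟨⟨v, hv⟩, Finset.mem_filter.2 ⟨Finset.mem_univ _, fun h' => h (mem_Rs.1 h')⟩, rfl⟩
    · rintro ⟨i, hi, rfl⟩
      exact ⟨i.2, fun h => (Finset.mem_filter.1 hi).2 (mem_Rs.2 h)⟩
  rw [h2, Finset.card_map]

/-- the test of the codimension is correct -/
theorem flg_iff (c : ℕ) (M : Inp) : flg c M = true ↔ Fintype.card {i // i ∉ Rs M} ≤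
    finrank ℚ (((Sol (pol M)).map (dir (fun i : Fin (nv M) =>
        (((sl c M).getD i 0 : ℕ) : ℚ)))).map (off (K := ℚ) (Rs M))) + c := by
  rw [flg, decide_eq_true_eq, card_compl]
  have h1 := rk_gt₀ M
  have h2 := rk_gt M (sl c M)
  omega

/-- **Matrices of small modality pass the test.** -/
theorem flg_of_mod {c : ℕ} {M : Inp} {R : Set (Fin (nv M))} (hR : R ⊆ low M)
    (h : Modality (fun z : Fin (nv M) → ℂ => (pol M).map (aeval z)) R c) :
    flg c M = true := by
  classical
  obtain ⟨R', rfl⟩ : ∃ R' : Finset (Fin (nv M)), (R' : Set (Fin (nv M))) = R :=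
    ⟨R.toFinset, by simp⟩
  rw [← coe_Rs, Finset.coe_subset] at hR
  exact (flg_iff c M).2 (codim_of_mod hR h (D := nb M) (by rw [nb]; omega) (sl_opt c M))

/-- **The algorithm finds the largest rank.** -/
theorem sol_max {c : ℕ} {M : Inp} (h : flg c M = true) (y : Fin (nv M) → ℚ) :
    ((pol M).map (aeval y)).rank ≤ (vl M (sol c M)).rank := by
  refine opt (c := c) (d := dg M) (D := nb M) (pol_degree M) (by rw [nb]; omega)
    ((flg_iff c M).1 h) (fun J hJ m hm z hz => ?_) y
  obtain ⟨w, hw, -, hw2⟩ := cd_mem c J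
    (fun i => if h : i ∈ J then m ⟨i, h⟩ else (sl c M).getD i 0) (sl c M) (sl_length c M) hJ
    (fun i hi => by rw [dif_neg hi]) (fun i hi => by rw [dif_pos hi]; exact hm _)
  have h4 : (fun i : Fin (nv M) => ((w.getD i 0 : ℕ) : ℚ)) =
      pt J (fun i : Fin (nv M) => (((sl c M).getD i 0 : ℕ) : ℚ)) fun j => (m j : ℚ) := by
    funext i
    rw [hw2, pt]
    by_cases h : i ∈ J
    · rw [dif_pos h, dif_pos h]
    · rw [dif_neg h, dif_neg h]
      rfl
  refine (fin_max M w z fun i hi => ?_).trans ?_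
  · rw [hz i hi, ← h4]
  · rw [sol]
    exact bst_spec M (List.ne_nil_of_mem (List.mem_map_of_mem hw)) _ (List.mem_map_of_mem hw)

/-- **Singularity is decided at one point.** -/
theorem sol_singular {c : ℕ} {M : Inp} (h : flg c M = true) : (pol M).det = 0 ↔
    (vl M (sol c M)).rank < dim M := by
  constructor
  · intro h1
    rw [← det_eq_zero_iff, vl, ← eval_det, h1, map_zero]
  · intro h1
    apply MvPolynomial.funext
    intro y
    rw [map_zero, ← aeval_eq_eval, eval_det, det_eq_zero_iff]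
    exact (sol_max h y).trans_lt h1

/-- **The decision problem.** -/
theorem alg_iff (c : ℕ) (M : Inp) : alg c M = true ↔ flg c M = true ∧ (pol M).det = 0 := by
  rw [alg, Bool.and_eq_true, decide_eq_true_eq]
  refine and_congr_right fun h => ?_
  rw [sol_singular h, rnk_et]

end Pool.Agent.L5helper60.MR
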