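import Mathlib

set_option autoImplicit false

/-!
# Modality of matrices which depend on parameters

Definition only.
-/

namespace Pool.Agent.L5helper60.MR

/-- The modality of a matrix `F` which depends on complex variables, modulo the variables in `R`, is
at most `c`: there is a countable subfield `K` of the complex numbers such that for all values `y` of
the variables there are invertible matrices `P`, `Q` and an invertible affine substitution
`z ↦ G z + b` of the variables with `P F(z) Q = F(G z + b)` for all `z`, such that `G` maps the space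
of the vectors supported in `R` to itself and the coordinates of `G y + b` outside of `R` are
algebraic over the field generated by `c` complex numbers over `K`. -/
def Modality {ι ι' κ : Type} [Fintype ι] [Fintype ι'] [Fintype κ] [DecidableEq ι]
    [DecidableEq ι'] [DecidableEq κ] (F : (κ → ℂ) → Matrix ι ι' ℂ) (R : Set κ) (c : ℕ) : Prop :=
  ∃ K : Subfield ℂ, (K : Set ℂ).Countable ∧ ∀ y : κ → ℂ,
    ∃ (P : Matrix ι ι ℂ) (Q : Matrix ι' ι' ℂ) (G : Matrix κ κ ℂ) (b : κ → ℂ) (s : Fin c → ℂ),
      IsUnit P ∧ IsUnit Q ∧ IsUnit G ∧ (∀ i ∉ R, ∀ j ∈ R, G i j = 0) ∧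
      (∀ z : κ → ℂ, P * F z * Q = F (G.mulVec z + b)) ∧
      ∀ i ∉ R, IsAlgebraic (IntermediateField.adjoin K (Set.range s)) ((G.mulVec y + b) i)

end Pool.Agent.L5helper60.MR
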