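import Pool.Agent.L5helper60.MR.Cor

set_option autoImplicit false

/-!
# The variables of small rank
-/

namespace Pool.Agent.L5helper60.MR

open Module Submodule Function MvPolynomial
open Pool.Agent.Lib.CX Pool.Agent.Lib.helper22.CXDet
open Pool.Agent.L5helper60.SR (witt_of_rank)

/-- polynomials with some constant derivatives -/
lemma taylor {k : ℕ} (f : MvPolynomial (Fin k) ℚ) (R : Finset (Fin k)) (a : Fin k → ℚ)
    (h : ∀ i ∈ R, pderiv i f = C (a i)) (z : Fin k → ℚ) :
    aeval z f = aeval (fun i => if i ∈ R then 0 else z i) f + ∑ i ∈ R, z i * a i := by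
  obtain ⟨z₀, hz₀⟩ : ∃ z₀ : Fin k → ℚ, z₀ = fun i => if i ∈ R then 0 else z i := ⟨_, rfl⟩
  obtain ⟨ψ, hψ⟩ : ∃ ψ : Fin k → Polynomial ℚ, ψ = fun i =>
    Polynomial.C (z₀ i) + Polynomial.X * Polynomial.C (z i - z₀ i) := ⟨_, rfl⟩
  obtain ⟨S, hS⟩ : ∃ S : ℚ, S = ∑ i ∈ R, z i * a i := ⟨_, rfl⟩
  have hev : ∀ c : ℚ, (aeval ψ f).eval c = aeval (fun i => (ψ i).eval c) f := by
    intro c
    have h1 : (Polynomial.aeval c : Polynomial ℚ →ₐ[ℚ] ℚ).comp (aeval ψ) =
        aeval fun i => (ψ i).eval c := by
      ext i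
      simp
    have h2 := DFunLike.congr_fun h1 f
    simpa using h2
  have hd : Polynomial.derivative (aeval ψ f) = Polynomial.C S := by
    have h1 := MO.chain (Polynomial.derivative' (R := ℚ)) ψ f
    change Polynomial.derivative (aeval ψ f) = ∑ i, aeval ψ (pderiv i f) *
      Polynomial.derivative (ψ i) at h1
    rw [h1, hS, map_sum, ← Finset.sum_subset (Finset.subset_univ R)]
    · refine Finset.sum_congr rfl fun i hi => ?_
      rw [h i hi, aeval_C, hψ, hz₀]
      simp [hi]
      ring
    · intro i _ hi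
      rw [hψ, hz₀]
      simp [hi]
  have h3 : Polynomial.derivative (aeval ψ f - Polynomial.X * Polynomial.C S) = 0 := by
    rw [Polynomial.derivative_sub, hd]
    simp
  have h4 := Polynomial.eq_C_of_derivative_eq_zero h3
  have h5 := congrArg (Polynomial.eval 1) h4
  have h6 := congrArg (Polynomial.eval 0) h4
  simp only [Polynomial.eval_sub, Polynomial.eval_mul, Polynomial.eval_X, Polynomial.eval_C,
    hev] at h5 h6
  have h7 : (fun i => (ψ i).eval 1) = z := by
    funext i
    rw [hψ]
    simp
  have h8 : (fun i => (ψ i).eval 0) = z₀ := by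
    funext i
    rw [hψ]
    simp
  rw [h7] at h5
  rw [h8] at h6
  rw [← hz₀, ← hS]
  linarith

/-! ### Tables -/

/-- the matrix of a table -/
def mt (N : ℕ) (T : List (List ℤ)) : Matrix (Fin N) (Fin N) ℚ := Matrix.of fun s t => (en T s t : ℚ)

lemma toQ_getD (T : List (List ℤ)) (s t : ℕ) : ((toQ T).getD s []).getD t 0 = (en T s t : ℚ) := by
  have h1 : (toQ T).getD s [] = (T.getD s []).map fun z : ℤ => (z : ℚ) := by
    have := List.getD_map (l := T) (n := s) (d := []) (fun r : List ℤ => r.map fun z : ℤ => (z : ℚ))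
    exact this
  rw [h1, en]
  have := List.getD_map (l := T.getD s []) (n := t) (d := 0) (fun z : ℤ => (z : ℚ))
  rw [Int.cast_zero] at this
  exact this

/-- **Symmetric matrices with coefficient matrices of rank at most three.** -/
theorem solve {N : ℕ} {T0 : List (List ℤ)} {Tl : List (List (List ℤ))} (h0 : T0.length = N)
    (hs : (mt N T0).IsSymm) (hl : ∀ T ∈ Tl, (mt N T).IsSymm ∧ (mt N T).rank ≤ 3) (y : ℕ → ℚ) :
    (mt N T0 + ∑ j : Fin Tl.length, y j • mt N Tl[j]).rank ≤
      (mt N T0 + ∑ j : Fin Tl.length,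
        (((SR.sol ((T0 :: Tl).map toQ)).getD j 0 : ℕ) : ℚ) • mt N Tl[j]).rank := by
  obtain ⟨L, hL⟩ : ∃ L : List (List (List ℚ)), L = (T0 :: Tl).map toQ := ⟨_, rfl⟩
  have hN : SR.dim L = N := by
    rw [hL, SR.dim, List.map_cons, List.headD_cons, toQ, List.length_map, h0]
  rw [← hL]
  subst hN
  have hlen : L.length - 1 = Tl.length := by
    rw [hL, List.length_map, List.length_cons, Nat.add_sub_cancel]
  have hm0 : SR.mat L 0 = mt (SR.dim L) T0 := by
    ext s t
    rw [SR.mat_apply, SR.ent, mt, Matrix.of_apply, ← toQ_getD]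
    simp only [hL, List.map_cons, List.getD_cons_zero]
  have hm : ∀ j : Fin Tl.length, SR.mat L (j + 1) = mt (SR.dim L) Tl[j] := by
    intro j
    ext s t
    rw [SR.mat_apply, SR.ent, mt, Matrix.of_apply, ← toQ_getD]
    have h1 : (Tl.map toQ).getD j [] = toQ Tl[j] := by
      rw [List.getD_eq_getElem _ _ (by rw [List.length_map]; exact j.2), List.getElem_map]
      rfl
    simp only [hL, List.map_cons, List.getD_cons_succ]
    rw [h1]
  have hgood : SR.Good L := by
    have h1 : ∀ i, 1 ≤ i → (SR.mat L i).IsSymm ∧ (SR.mat L i).rank ≤ 3 := by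
      intro i hi
      by_cases h2 : i - 1 < Tl.length
      · have h3 := hm ⟨i - 1, h2⟩
        have h4 : (i - 1) + 1 = i := by omega
        simp only [h4] at h3
        rw [h3]
        exact hl _ (List.getElem_mem _)
      · have h3 : SR.mat L i = 0 := SR.mat_default L (by omega)
        rw [h3]
        exact ⟨Matrix.isSymm_zero, by rw [Matrix.rank_zero]; omega⟩
    refine ⟨fun i => ?_, fun i hi => witt_of_rank (h1 i hi).1 (h1 i hi).2⟩
    rcases Nat.eq_zero_or_pos i with h2 | h2
    · subst h2
      rw [hm0]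
      exact hs
    · exact (h1 i h2).1
  have hv : ∀ y : ℕ → ℚ, SR.val L y =
      mt (SR.dim L) T0 + ∑ j : Fin Tl.length, y j • mt (SR.dim L) Tl[j] := by
    intro y
    rw [SR.val, hlen, Finset.sum_range, hm0]
    simp only [hm]
  rw [← hv, ← hv fun j => (((SR.sol L).getD j 0 : ℕ) : ℚ)]
  exact hgood.max y

/-! ### The symmetric matrix with two blocks -/

/-- the symmetric matrix with two blocks -/
def D {n : ℕ} (A : Matrix (Fin n) (Fin n) ℚ) : Matrix (Fin (n + n)) (Fin (n + n)) ℚ :=
  (Matrix.fromBlocks 0 A A.transpose 0).submatrix finSumFinEquiv.symm finSumFinEquiv.symm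

lemma D_symm {n : ℕ} (A : Matrix (Fin n) (Fin n) ℚ) : (D A).IsSymm := by
  rw [D, Matrix.IsSymm, Matrix.transpose_submatrix, Matrix.fromBlocks_transpose,
    Matrix.transpose_zero, Matrix.transpose_transpose]

lemma D_add {n : ℕ} (A B : Matrix (Fin n) (Fin n) ℚ) : D (A + B) = D A + D B := by
  rw [D, D, D, Matrix.transpose_add]
  ext s t
  simp only [Matrix.submatrix_apply, Matrix.add_apply]
  rcases finSumFinEquiv.symm s with s | s <;> rcases finSumFinEquiv.symm t with t | t <;> simp

lemma D_smul {n : ℕ} (c : ℚ) (A : Matrix (Fin n) (Fin n) ℚ) : D (c • A) = c • D A := by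
  rw [D, D, Matrix.transpose_smul]
  ext s t
  simp only [Matrix.submatrix_apply, Matrix.smul_apply]
  rcases finSumFinEquiv.symm s with s | s <;> rcases finSumFinEquiv.symm t with t | t <;> simp

lemma D_sum {n : ℕ} {ι : Type} (S : Finset ι) (f : ι → Matrix (Fin n) (Fin n) ℚ) :
    D (∑ i ∈ S, f i) = ∑ i ∈ S, D (f i) := by
  classical
  induction S using Finset.induction_on with
  | empty =>
    rw [Finset.sum_empty, Finset.sum_empty]
    have := D_smul (n := n) 0 0
    rw [zero_smul, zero_smul] at this
    exact this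
  | insert a S ha ih => rw [Finset.sum_insert ha, Finset.sum_insert ha, D_add, ih]

lemma rank_add_ker' {m : Type} [Fintype m] [DecidableEq m] (A : Matrix m m ℚ) :
    A.rank + finrank ℚ (LinearMap.ker A.mulVecLin) = Fintype.card m := by
  rw [Matrix.rank, LinearMap.finrank_range_add_finrank_ker, Module.finrank_fintype_fun_eq_card]

/-- **The rank of the matrix with two blocks.** -/
theorem rank_D {n : ℕ} (A : Matrix (Fin n) (Fin n) ℚ) : (D A).rank = A.rank + A.rank := by
  rw [D, Matrix.rank_submatrix]
  have h1 := rank_add_ker' (Matrix.fromBlocks (0 : Matrix (Fin n) (Fin n) ℚ) A A.transpose 0)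
  have h2 := rank_add_ker' A
  have h3 := rank_add_ker' A.transpose
  rw [Matrix.rank_transpose] at h3
  let e : LinearMap.ker (Matrix.fromBlocks (0 : Matrix (Fin n) (Fin n) ℚ) A
      A.transpose 0).mulVecLin ≃ₗ[ℚ] LinearMap.ker A.transpose.mulVecLin ×
      LinearMap.ker A.mulVecLin :=
    { toFun := fun w => (⟨fun i => w.1 (Sum.inl i), by
          have h := w.2
          rw [LinearMap.mem_ker, Matrix.mulVecLin_apply] at h ⊢
          rw [Matrix.fromBlocks_mulVec] at h
          funext i
          have h4 := congrFun h (Sum.inr i)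
          simp only [Sum.elim_inr, Matrix.zero_mulVec, add_zero] at h4
          exact h4⟩, ⟨fun i => w.1 (Sum.inr i), by
          have h := w.2
          rw [LinearMap.mem_ker, Matrix.mulVecLin_apply] at h ⊢
          rw [Matrix.fromBlocks_mulVec] at h
          funext i
          have h4 := congrFun h (Sum.inl i)
          simp only [Sum.elim_inl, Matrix.zero_mulVec, zero_add] at h4
          exact h4⟩)
      map_add' := fun u v => rfl
      map_smul' := fun c u => rfl
      invFun := fun w => ⟨Sum.elim w.1.1 w.2.1, by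
        have ha := w.1.2
        have hb := w.2.2
        rw [LinearMap.mem_ker, Matrix.mulVecLin_apply] at ha hb
        rw [LinearMap.mem_ker, Matrix.mulVecLin_apply, Matrix.fromBlocks_mulVec]
        funext i
        rcases i with i | i
        · have := congrFun hb i
          simpa using this
        · have := congrFun ha i
          simpa using this⟩
      left_inv := fun w => Subtype.ext (by
        funext i
        rcases i with i | i <;> rfl)
      right_inv := fun w => rfl }
  have h4 := e.finrank_eq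
  rw [Module.finrank_prod] at h4
  rw [Fintype.card_sum] at h1
  omega

lemma mt_dbl (n : ℕ) (T : List (List ℤ)) : mt (n + n) (dbl n T) = D (mt n T) := by
  ext s t
  rw [mt, Matrix.of_apply, dbl, en_tb s.2 t.2, D, Matrix.submatrix_apply]
  obtain ⟨s, rfl⟩ := finSumFinEquiv.surjective s
  obtain ⟨t, rfl⟩ := finSumFinEquiv.surjective t
  rw [Equiv.symm_apply_apply, Equiv.symm_apply_apply]
  rcases s with s | s <;> rcases t with t | t
  · simp
  · simp [mt]
  · simp [mt]
  · simp

end Pool.Agent.L5helper60.MR
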