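import Pool.Agent.L5helper60.MR.Pub
import Pool.Agent.L5helper60.MQ.Tan

/-!
# Tangent vectors at points in general position
-/

set_option autoImplicit false

namespace Pool.Agent.L5helper60.MR

open Module MvPolynomial
open Pool.Agent.L5helper60.MO (chain pt exists_transcendental exists_der der_algebraic)
open Pool.Agent.L5helper60.MQ (Un Pm Qm Cm dir co el dM el_sum map_mul_der chain_matrix symm_deriv)

variable {n k : ℕ} {S : Type} [CommRing S] [Algebra ℚ S]

/-- the inverse matrix maps the vectors supported in `R` to themselves -/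
lemma inv_supp {R : Finset (Fin k)} {G G' : Matrix (Fin k) (Fin k) ℂ} (hG2 : G' * G = 1)
    (h : ∀ i ∉ R, ∀ j ∈ R, G i j = 0) {e : Fin k → ℂ} (he : ∀ i ∉ R, e i = 0)
    {i : Fin k} (hi : i ∉ R) : G'.mulVec e i = 0 := by
  let E : Submodule ℂ (Fin k → ℂ) :=
    { carrier := {v | ∀ i ∉ R, v i = 0}
      add_mem' := fun {a b} ha hb i hi => by
        show a i + b i = 0
        rw [ha i hi, hb i hi, add_zero]
      zero_mem' := fun _ _ => rfl
      smul_mem' := fun c a ha i hi => by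
        show c * a i = 0
        rw [ha i hi, mul_zero] }
  have h1 : E.map G.mulVecLin ≤ E := by
    rintro _ ⟨v, hv, rfl⟩
    intro i hi
    rw [Matrix.mulVecLin_apply]
    show ∑ j, G i j * v j = 0
    refine Finset.sum_eq_zero fun j _ => ?_
    by_cases hj : j ∈ R
    · rw [h i hi j hj, zero_mul]
    · rw [hv j hj, mul_zero]
  have hinj : Function.Injective G.mulVecLin := by
    intro u v huv
    have h2 := congrArg G'.mulVec huv
    rw [Matrix.mulVecLin_apply, Matrix.mulVecLin_apply, Matrix.mulVec_mulVec,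
      Matrix.mulVec_mulVec, hG2, Matrix.one_mulVec, Matrix.one_mulVec] at h2
    exact h2
  have h2 : E.map G.mulVecLin = E := by
    refine Submodule.eq_of_le_of_finrank_eq h1 ?_
    exact (Submodule.equivMapOfInjective G.mulVecLin hinj E).finrank_eq.symm
  have h3 : e ∈ E := he
  rw [← h2] at h3
  obtain ⟨v, hv, rfl⟩ := h3
  rw [Matrix.mulVecLin_apply, Matrix.mulVec_mulVec, hG2, Matrix.one_mulVec]
  exact hv i hi

/-- **A tangent vector of an orbit in the directions of `c + 1` generic coordinates.** -/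
theorem tangent (M : Matrix (Fin n) (Fin n) (MvPolynomial (Fin k) ℚ)) {c : ℕ} {K : Subfield ℂ}
    {R J : Finset (Fin k)} (hJR : Disjoint J R) (hJ : J.card = c + 1) {l : {j // j ∈ J} → ℂ}
    (hl : AlgebraicIndependent K l) (x : Fin k → ℚ)
    (hM : ∃ (P Q : Matrix (Fin n) (Fin n) ℂ) (G : Matrix (Fin k) (Fin k) ℂ) (b : Fin k → ℂ)
      (s : Fin c → ℂ), IsUnit P ∧ IsUnit Q ∧ IsUnit G ∧
      (∀ i ∉ (R : Set (Fin k)), ∀ j ∈ (R : Set (Fin k)), G i j = 0) ∧
      (∀ z : Fin k → ℂ, P * M.map (aeval z) * Q = M.map (aeval (G.mulVec z + b))) ∧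
      ∀ i ∉ (R : Set (Fin k)), IsAlgebraic (IntermediateField.adjoin K (Set.range s))
        ((G.mulVec (pt J x l) + b) i)) :
    ∃ w : Un n k → ℂ, (∀ z : Fin k → ℂ, ∑ u, w u • (el M u).map (aeval z) = 0) ∧
      (∀ i, i ∉ R → i ∉ J → dir (pt J x l) w i = 0) ∧ ∃ i ∈ J, dir (pt J x l) w i ≠ 0 := by
  obtain ⟨P, Q, G, b, s, hP, hQ, hG, hGR, h, halg⟩ := hM
  obtain ⟨P', hP1, hP2⟩ := isUnit_iff_exists.1 hP
  obtain ⟨Q', hQ1, hQ2⟩ := isUnit_iff_exists.1 hQ
  obtain ⟨G', hG1, hG2⟩ := isUnit_iff_exists.1 hG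
  obtain ⟨i₀, hi₀⟩ := exists_transcendental (by rw [Fintype.card_coe, hJ]) hl s
  obtain ⟨δ₀, hδ₀⟩ := exists_der (F := IntermediateField.adjoin K (Set.range s)) (T := ℂ)
    (w := fun _ : Unit => l i₀) (algebraicIndependent_unique_type_iff.2 hi₀) ()
  have h1 : δ₀ (l i₀) = 1 := by simpa using hδ₀ ()
  have h2 : ∀ i ∉ R, δ₀ ((G.mulVec (pt J x l) + b) i) = 0 :=
    fun i hi => der_algebraic δ₀ (halg i hi)
  obtain ⟨δ, hδ⟩ : ∃ δ : Derivation ℚ ℂ ℂ, ∀ a, δ a = δ₀ a :=
    ⟨δ₀.restrictScalars ℚ, fun _ => rfl⟩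
  simp only [← hδ] at h1 h2
  clear hδ₀ halg hδ
  -- the infinitesimal symmetry
  obtain ⟨w, hw1, hw2, hw3, hw4⟩ : ∃ w : Un n k → ℂ, Pm w = P' * P.map δ ∧
      Qm w = Q.map δ * Q' ∧ (∀ i, Cm w i 0 = (G'.mulVec (δ ∘ b)) i) ∧
      ∀ i j, Cm w i (Fin.succ j) = (G' * G.map δ) i j :=
    ⟨Sum.elim (fun u => (P' * P.map δ) u.1 u.2) (Sum.elim (fun u => (Q.map δ * Q') u.1 u.2)
      fun u => Fin.cons (α := fun _ => ℂ) ((G'.mulVec (δ ∘ b)) u.1) ((G' * G.map δ) u.1) u.2),
      rfl, rfl, fun _ => rfl, fun _ _ => rfl⟩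
  have hdir : ∀ z : Fin k → ℂ, dir z w = G'.mulVec ((G.map δ).mulVec z + δ ∘ b) := by
    intro z
    funext i
    have h3 : dir z w i = Cm w i 0 + ∑ j, Cm w i j.succ * z j := rfl
    rw [h3, hw3]
    simp only [hw4]
    have h7 : ∑ j, (G' * G.map δ) i j * z j = ((G' * G.map δ).mulVec z) i := rfl
    rw [h7, Matrix.mulVec_add, Matrix.mulVec_mulVec, Pi.add_apply, add_comm]
  have hcan : ∀ N : Matrix (Fin n) (Fin n) ℂ, P * N * Q = 0 → N = 0 := by
    intro N hN
    have : P' * (P * N * Q) * Q' = N := by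
      rw [← Matrix.mul_assoc, ← Matrix.mul_assoc, hP2, Matrix.one_mul, Matrix.mul_assoc, hQ1,
        Matrix.mul_one]
    rw [← this, hN, mul_zero, zero_mul]
  have hw : ∀ z : Fin k → ℂ, ∑ u, w u • (el M u).map (aeval z) = 0 := by
    intro z
    rw [el_sum]
    apply hcan
    -- the derivative of the symmetry
    have h3 := congrArg (fun N : Matrix (Fin n) (Fin n) ℂ => N.map δ) (h z)
    simp only [map_mul_der] at h3
    rw [chain_matrix, chain_matrix] at h3
    have h4 : P * (∑ i, δ (z i) • (dM M i).map (aeval z)) * Q =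
        ∑ i, (G.mulVec (δ ∘ z)) i • (dM M i).map (aeval (G.mulVec z + b)) := by
      simp only [Matrix.mul_sum, Matrix.sum_mul, Matrix.mul_smul, Matrix.smul_mul,
        symm_deriv h, Finset.smul_sum, smul_smul]
      rw [Finset.sum_comm]
      refine Finset.sum_congr rfl fun i _ => ?_
      rw [← Finset.sum_smul]
      congr 1
      show ∑ j, δ (z j) * G i j = ∑ j, G i j * δ (z j)
      exact Finset.sum_congr rfl fun j _ => mul_comm _ _
    have h5 : ∀ i, δ ((G.mulVec z + b) i) =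
        (G.mulVec (δ ∘ z)) i + ((G.map δ).mulVec z + δ ∘ b) i := by
      intro i
      have h6 : (G.mulVec z + b) i = ∑ j, G i j * z j + b i := rfl
      rw [h6, map_add, map_sum]
      simp only [Derivation.leibniz, smul_eq_mul, Finset.sum_add_distrib]
      have h7 : ((G.map δ).mulVec z + δ ∘ b) i = ∑ j, δ (G i j) * z j + δ (b i) := rfl
      have h8 : (G.mulVec (δ ∘ z)) i = ∑ j, G i j * δ (z j) := rfl
      rw [h7, h8, ← add_assoc]
      congr 2
      exact Finset.sum_congr rfl fun j _ => mul_comm _ _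
    simp only [h5, add_smul, Finset.sum_add_distrib] at h3
    rw [add_mul, h4] at h3
    have h6 : P.map δ * M.map (aeval z) * Q + P * M.map (aeval z) * Q.map δ =
        ∑ i, ((G.map δ).mulVec z + δ ∘ b) i • (dM M i).map (aeval (G.mulVec z + b)) := by
      have h7 : P.map δ * M.map (aeval z) * Q + P * M.map (aeval z) * Q.map δ =
          P.map δ * M.map (aeval z) * Q + ∑ i, (G.mulVec (δ ∘ z)) i •
            (dM M i).map (aeval (G.mulVec z + b)) + P * M.map (aeval z) * Q.map δ -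
            ∑ i, (G.mulVec (δ ∘ z)) i • (dM M i).map (aeval (G.mulVec z + b)) := by abel
      rw [h7, h3]
      abel
    have h7 : P * (∑ i, dir z w i • (dM M i).map (aeval z)) * Q =
        ∑ i, ((G.map δ).mulVec z + δ ∘ b) i • (dM M i).map (aeval (G.mulVec z + b)) := by
      simp only [Matrix.mul_sum, Matrix.sum_mul, Matrix.mul_smul, Matrix.smul_mul,
        symm_deriv h, Finset.smul_sum, smul_smul]
      rw [Finset.sum_comm]
      refine Finset.sum_congr rfl fun i _ => ?_
      rw [← Finset.sum_smul]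
      congr 1
      have h8 : (G.mulVec (dir z w)) i = ((G.map δ).mulVec z + δ ∘ b) i := by
        rw [hdir, Matrix.mulVec_mulVec, hG1, Matrix.one_mulVec]
      rw [← h8]
      show ∑ j, dir z w j * G i j = ∑ j, G i j * dir z w j
      exact Finset.sum_congr rfl fun j _ => mul_comm _ _
    rw [mul_sub, sub_mul, h7, ← h6, hw1, hw2]
    have h8 : P * (P' * P.map δ * M.map (aeval z) + M.map (aeval z) * (Q.map δ * Q')) * Q =
        (P * P') * P.map δ * M.map (aeval z) * Q +
          P * M.map (aeval z) * Q.map δ * (Q' * Q) := by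
      simp only [mul_add, add_mul, Matrix.mul_assoc]
    rw [h8, hP1, hQ2, Matrix.one_mul, Matrix.mul_one, sub_self]
  have hv : ∀ i ∉ R, dir (pt J x l) w i = - δ (pt J x l i) := by
    intro i hi
    have h4 : G.mulVec (δ ∘ pt J x l) + ((G.map δ).mulVec (pt J x l) + δ ∘ b) =
        fun i' => δ ((G.mulVec (pt J x l) + b) i') := by
      funext i'
      have h6 : (G.mulVec (pt J x l) + b) i' = ∑ j, G i' j * pt J x l j + b i' := rfl
      rw [h6, map_add, map_sum]
      simp only [Derivation.leibniz, smul_eq_mul, Finset.sum_add_distrib]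
      have h6 : ∑ j, pt J x l j * δ (G i' j) = ∑ j, δ (G i' j) * pt J x l j :=
        Finset.sum_congr rfl fun j _ => mul_comm _ _
      rw [h6, add_assoc]
      rfl
    have h5 := congrArg G'.mulVec h4
    rw [Matrix.mulVec_add, Matrix.mulVec_mulVec, hG2, Matrix.one_mulVec, ← hdir] at h5
    have h6 := congrFun h5 i
    rw [inv_supp hG2 hGR h2 hi] at h6
    simp only [Pi.add_apply, Function.comp_apply] at h6
    linear_combination h6
  refine ⟨w, hw, ?_, i₀.1, i₀.2, ?_⟩
  · intro i hiR hi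
    rw [hv i hiR, pt, dif_neg hi, Derivation.map_algebraMap, neg_zero]
  · intro h3
    rw [hv i₀.1 (Finset.disjoint_left.1 hJR i₀.2), pt, dif_pos i₀.2] at h3
    change - δ (l i₀) = 0 at h3
    rw [h1] at h3
    norm_num at h3

end Pool.Agent.L5helper60.MR
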